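import Mathlib

set_option autoImplicit false

open Set Filter Topology Cardinal

namespace Pool.Agent.H875R3.SG

universe u

/-- The three dimensional space `ℂ × ℝ` normed by
`‖(z, s)‖ = max |z| (|Re (conj a * z)| + |s|)`, where `a` is a complex number of modulus one. -/
def Fu (_a : Circle) : Type := ℂ × ℝ

noncomputable section

variable (a : Circle)

instance : AddCommGroup (Fu a) := inferInstanceAs (AddCommGroup (ℂ × ℝ))
instance : Module ℝ (Fu a) := inferInstanceAs (Module ℝ (ℂ × ℝ))
instance : FiniteDimensional ℝ (Fu a) := inferInstanceAs (FiniteDimensional ℝ (ℂ × ℝ))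

/-- the real inner product with `a` -/
def ip (a : Circle) (z : ℂ) : ℝ := ((starRingEnd ℂ) (a : ℂ) * z).re

theorem ip_add (z w : ℂ) : ip a (z + w) = ip a z + ip a w := by simp [ip, mul_add]

theorem ip_smul (c : ℝ) (z : ℂ) : ip a (c • z) = c * ip a z := by
  simp [ip]
  ring

theorem abs_ip_le (z : ℂ) : |ip a z| ≤ ‖z‖ := by
  unfold ip
  refine (Complex.abs_re_le_norm _).trans ?_
  rw [norm_mul, RCLike.norm_conj, Circle.norm_coe, one_mul]

theorem ip_self : ip a (a : ℂ) = 1 := by
  unfold ip
  rw [← Complex.normSq_eq_conj_mul_self]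
  simp

instance : Norm (Fu a) := ⟨fun p => max ‖p.1‖ (|ip a p.1| + |p.2|)⟩

theorem norm_def (p : Fu a) : ‖p‖ = max ‖p.1‖ (|ip a p.1| + |p.2|) := rfl

theorem core : NormedSpace.Core ℝ (Fu a) where
  norm_nonneg p := (norm_nonneg p.1).trans (le_max_left _ _)
  norm_smul c p := by
    rw [norm_def, norm_def]
    have h1 : (c • p).1 = c • p.1 := rfl
    have h2 : (c • p).2 = c * p.2 := rfl
    rw [h1, h2, ip_smul, norm_smul, abs_mul, abs_mul, ← mul_add, mul_max_of_nonneg _ _ (norm_nonneg c)]
    rfl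
  norm_triangle p q := by
    rw [norm_def, norm_def, norm_def]
    have h1 : (p + q).1 = p.1 + q.1 := rfl
    have h2 : (p + q).2 = p.2 + q.2 := rfl
    rw [h1, h2, ip_add]
    apply max_le
    · exact (norm_add_le _ _).trans (add_le_add (le_max_left _ _) (le_max_left _ _))
    · have h3 := abs_add_le (ip a p.1) (ip a q.1)
      have h4 := abs_add_le p.2 q.2
      have h5 := le_max_right ‖p.1‖ (|ip a p.1| + |p.2|)
      have h6 := le_max_right ‖q.1‖ (|ip a q.1| + |q.2|)
      linarith
  norm_eq_zero_iff p := by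
    constructor
    · intro h
      rw [norm_def] at h
      have h1 : ‖p.1‖ ≤ 0 := h ▸ le_max_left _ _
      have h2 : |ip a p.1| + |p.2| ≤ 0 := h ▸ le_max_right _ _
      have h3 : p.1 = 0 := norm_le_zero_iff.1 h1
      have h4 : p.2 = 0 := by
        have := abs_nonneg (ip a p.1)
        have h5 : |p.2| ≤ 0 := by linarith
        exact abs_nonpos_iff.1 h5
      exact Prod.ext h3 h4
    · intro h
      rw [h, norm_def]
      have h1 : (0 : Fu a).1 = 0 := rfl
      have h2 : (0 : Fu a).2 = 0 := rfl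
      rw [h1, h2]
      simp [ip]

instance : NormedAddCommGroup (Fu a) := NormedAddCommGroup.ofCore (core a)
instance : NormedSpace ℝ (Fu a) := NormedSpace.ofCore (core a)

theorem norm_def' (p : Fu a) : ‖p‖ = max ‖p.1‖ (|ip a p.1| + |p.2|) := rfl

/-- the isometric inclusion of the Euclidean plane -/
def J : ℂ →ₗᵢ[ℝ] Fu a where
  toFun z := (z, 0)
  map_add' z w := Prod.ext rfl (by
    change (0:ℝ) = 0 + 0
    simp)
  map_smul' c z := Prod.ext rfl (by
    change (0:ℝ) = c * 0
    simp)
  norm_map' z := by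
    change max ‖z‖ (|ip a z| + |(0:ℝ)|) = ‖z‖
    rw [abs_zero, add_zero]
    exact max_eq_left (abs_ip_le a z)

/-- the new vector -/
def e3 : Fu a := ((0 : ℂ), (1 : ℝ))

end

/-- A real normed space is of universal disposition for finite dimensional spaces: every isometric
embedding of a subspace `E` of a finite dimensional normed space `F` extends to an isometric
embedding of `F`. -/
def StrongGurarii (X : Type u) [NormedAddCommGroup X] [NormedSpace ℝ X] : Prop :=
  ∀ (F : Type) [NormedAddCommGroup F] [NormedSpace ℝ F] [FiniteDimensional ℝ F]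
    (E : Submodule ℝ F) (f : E →ₗᵢ[ℝ] X), ∃ g : F →ₗᵢ[ℝ] X, ∀ x : E, g (x : F) = f x

theorem StrongGurarii.extend {X : Type u} [NormedAddCommGroup X] [NormedSpace ℝ X]
    (hX : StrongGurarii X) {E F : Type} [NormedAddCommGroup E] [NormedSpace ℝ E]
    [NormedAddCommGroup F] [NormedSpace ℝ F] [FiniteDimensional ℝ F]
    (j : E →ₗᵢ[ℝ] F) (f : E →ₗᵢ[ℝ] X) : ∃ g : F →ₗᵢ[ℝ] X, ∀ x : E, g (j x) = f x := by
  obtain ⟨g, hg⟩ := hX F (LinearMap.range j.toLinearMap)
    (f.comp j.equivRange.symm.toLinearIsometry)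
  refine ⟨g, fun x => ?_⟩
  have h := hg (j.equivRange x)
  have h2 : ((j.equivRange x : LinearMap.range j.toLinearMap) : F) = j x := rfl
  rw [h2] at h
  rw [h]
  change f (j.equivRange.symm (j.equivRange x)) = f x
  rw [LinearIsometryEquiv.symm_apply_apply]

/-- There is an isometric copy of the Euclidean plane. -/
theorem StrongGurarii.plane {X : Type u} [NormedAddCommGroup X] [NormedSpace ℝ X]
    (hX : StrongGurarii X) : Nonempty (ℂ →ₗᵢ[ℝ] X) := by
  obtain ⟨g, -⟩ := hX ℂ ⊥
    { toLinearMap := 0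
      norm_map' := by
        intro x
        have : x = 0 := Subsingleton.elim _ _
        simp [this] }
  exact ⟨g⟩

theorem ip_exp (s t : ℝ) : ip (Circle.exp s) (Circle.exp t : ℂ) = Real.cos (t - s) := by
  unfold ip
  rw [Circle.coe_exp, Circle.coe_exp, ← Complex.exp_conj, ← Complex.exp_add]
  have h : (starRingEnd ℂ) (s * Complex.I) + t * Complex.I = ((t - s : ℝ) : ℂ) * Complex.I := by
    simp; ring
  rw [h, Complex.exp_ofReal_mul_I_re]

theorem abs_cos_lt_one {x : ℝ} (h0 : x ≠ 0) (h1 : |x| < 1) : |Real.cos x| < 1 := by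
  have hpi := Real.pi_gt_three
  rw [abs_lt]
  rw [abs_lt] at h1
  constructor
  · have := Real.cos_pos_of_mem_Ioo (x := x) ⟨by linarith, by linarith⟩
    linarith
  · have h2 := Real.cos_le_one x
    rcases h2.lt_or_eq with h | h
    · exact h
    · exfalso
      rw [Real.cos_eq_one_iff_of_lt_of_lt (by linarith) (by linarith)] at h
      exact h0 h

/-- A family of continuum many vectors with mutual distances at least one. -/
theorem StrongGurarii.exists_family {X : Type u} [NormedAddCommGroup X] [NormedSpace ℝ X]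
    (hX : StrongGurarii X) : ∃ z : Ioo (0:ℝ) 1 → X, ∀ s t, s ≠ t → 1 ≤ ‖z s - z t‖ := by
  obtain ⟨f⟩ := hX.plane
  have hg : ∀ a : Circle, ∃ g : Fu a →ₗᵢ[ℝ] X, ∀ x : ℂ, g (J a x) = f x := fun a =>
    hX.extend (J a) f
  choose g hg using hg
  refine ⟨fun s => g (Circle.exp s) (e3 _), ?_⟩
  intro s t hst
  have key : ∀ (a : Circle) (z : ℂ), ‖f z + g a (e3 a)‖ = max ‖z‖ (|ip a z| + 1) := by
    intro a z
    rw [← hg a z, ← map_add, LinearIsometry.norm_map]
    have : J a z + e3 a = ((z, (1:ℝ)) : ℂ × ℝ) := by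
      refine Prod.ext ?_ ?_
      · change z + 0 = z
        simp
      · change (0:ℝ) + 1 = 1
        simp
    rw [this]
    change max ‖z‖ (|ip a z| + |(1:ℝ)|) = _
    rw [abs_one]
  set c : ℝ := |Real.cos ((s:ℝ) - t)| with hc
  have hc1 : c < 1 := by
    apply abs_cos_lt_one
    · intro h
      exact hst (Subtype.ext (by linarith))
    · rw [abs_lt]
      constructor <;> linarith [s.2.1, s.2.2, t.2.1, t.2.2]
  have hc0 : 0 ≤ c := abs_nonneg _
  have h1c : 0 < 1 - c := by linarith
  set r : ℝ := 1 / (1 - c) with hr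
  have hr0 : 0 < r := by positivity
  have hrc : r * c + 1 ≤ r := by
    have : r * (1 - c) = 1 := by rw [hr]; field_simp
    nlinarith
  have e1 := key (Circle.exp s) (r • (Circle.exp (s:ℝ) : ℂ))
  have e2 := key (Circle.exp t) (r • (Circle.exp (s:ℝ) : ℂ))
  rw [ip_smul, ip_exp, norm_smul, Circle.norm_coe, mul_one, Real.norm_of_nonneg hr0.le, abs_mul,
    abs_of_pos hr0] at e1 e2
  rw [sub_self, Real.cos_zero, abs_one, mul_one, max_eq_right (by linarith)] at e1
  rw [← hc, max_eq_left hrc] at e2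
  have h3 := norm_sub_norm_le (f (r • (Circle.exp (s:ℝ) : ℂ)) + g (Circle.exp s) (e3 _))
    (f (r • (Circle.exp (s:ℝ) : ℂ)) + g (Circle.exp t) (e3 _))
  rw [e1, e2, add_sub_add_left_eq_sub] at h3
  linarith

/-- Every dense subset of a strong Gurarii space has at least continuum many elements. -/
theorem StrongGurarii.continuum_le {X : Type u} [NormedAddCommGroup X] [NormedSpace ℝ X]
    (hX : StrongGurarii X) (D : Set X) (hD : Dense D) : Cardinal.continuum ≤ #D := by
  obtain ⟨z, hz⟩ := hX.exists_family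
  have h1 : ∀ s, ∃ d : D, dist (z s) (d : X) < 1 / 2 := by
    intro s
    obtain ⟨d, hd, hd2⟩ := Metric.dense_iff.1 hD (z s) (1/2) (by norm_num)
    refine ⟨⟨d, hd2⟩, ?_⟩
    rw [dist_comm]
    exact hd
  choose d hd using h1
  have hinj : Function.Injective d := by
    intro s t hst
    by_contra hne
    have h2 := hz s t hne
    have h3 := dist_triangle_right (z s) (z t) (d s : X)
    have h4 := hd s
    have h5 := hd t
    rw [← hst] at h5
    rw [← dist_eq_norm] at h2
    linarith
  have h6 := Cardinal.mk_le_of_injective (f := fun x : ULift.{u} (Ioo (0:ℝ) 1) => d x.down)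
    (hinj.comp ULift.down_injective)
  have h7 : #(ULift.{u} (Ioo (0:ℝ) 1)) = Cardinal.continuum := by
    rw [Cardinal.mk_uLift, Cardinal.mk_Ioo_real zero_lt_one]
    simp
  rwa [h7] at h6

end Pool.Agent.H875R3.SG
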