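import Mathlib

set_option autoImplicit false

open ArithmeticFunction

namespace Pool.Agent.H875R3.Haj

theorem Om_le {a b : ℕ} (h : a ∣ b) (hb : b ≠ 0) : cardFactors a ≤ cardFactors b := by
  obtain ⟨c, rfl⟩ := h
  have ha : a ≠ 0 := by rintro rfl; simp at hb
  have hc : c ≠ 0 := by rintro rfl; simp at hb
  rw [cardFactors_mul ha hc]
  exact Nat.le_add_right _ _

theorem Om_lt {a b : ℕ} (h : a ∣ b) (hb : b ≠ 0) (hab : a ≠ b) :
    cardFactors a < cardFactors b := by
  obtain ⟨c, rfl⟩ := h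
  have ha : a ≠ 0 := by rintro rfl; simp at hb
  have hc : c ≠ 0 := by rintro rfl; simp at hb
  rw [cardFactors_mul ha hc]
  have : 0 < cardFactors c := by
    rw [cardFactors_pos_iff_one_lt]
    rcases Nat.lt_or_ge 1 c with h | h
    · exact h
    · exfalso
      apply hab
      have : c = 1 := by omega
      rw [this, mul_one]
  omega

variable {G : Type*} [CommGroup G]

/-- the factor `z` kills the character `χ` -/
def Kills (z : G × ℕ) (χ : G →* ℂˣ) : Prop :=
  (z.2 = 0 ∧ χ z.1 = 1) ∨ (z.2 ≠ 0 ∧ χ z.1 ≠ 1 ∧ χ z.1 ^ z.2 = 1)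

/-- the weight of a factor -/
def wt (z : G × ℕ) : ℕ := if z.2 = 0 then 1 else cardFactors z.2

/-- all characters which agree with `χ₀` on `K` are killed by a factor from `J` -/
def Cov (K : Subgroup G) (χ₀ : G →* ℂˣ) (J : Finset (G × ℕ)) : Prop :=
  ∀ χ : G →* ℂˣ, (∀ k ∈ K, χ k = χ₀ k) → ∃ z ∈ J, Kills z χ

/-- the group generated by the elements of the factors -/
def gen (J : Finset (G × ℕ)) : Subgroup G := Subgroup.closure (Prod.fst '' (J : Set (G × ℕ)))

theorem gen_mono {I J : Finset (G × ℕ)} (h : I ⊆ J) : gen I ≤ gen J :=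
  Subgroup.closure_mono (Set.image_mono (by exact_mod_cast h))

theorem mem_gen {J : Finset (G × ℕ)} {z : G × ℕ} (h : z ∈ J) : z.1 ∈ gen J :=
  Subgroup.subset_closure ⟨z, by exact_mod_cast h, rfl⟩

theorem gen_union [DecidableEq (G × ℕ)] (I J : Finset (G × ℕ)) : gen (I ∪ J) = gen I ⊔ gen J := by
  unfold gen
  rw [Finset.coe_union, Set.image_union, Subgroup.closure_union]

theorem gen_singleton (z : G × ℕ) : gen {z} = Subgroup.zpowers z.1 := by
  unfold gen
  rw [Finset.coe_singleton, Set.image_singleton, Subgroup.zpowers_eq_closure]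

theorem relIndex_zpowers (K : Subgroup G) (a : G) :
    K.relIndex (K ⊔ Subgroup.zpowers a) = orderOf (QuotientGroup.mk' K a) := by
  rw [sup_comm, Subgroup.relIndex_sup_right]
  conv_lhs => rw [← QuotientGroup.ker_mk' K]
  rw [Subgroup.relIndex_ker, MonoidHom.map_zpowers, Nat.card_zpowers]

theorem order_dvd_iff (K : Subgroup G) (a : G) (s : ℕ) :
    orderOf (QuotientGroup.mk' K a) ∣ s ↔ a ^ s ∈ K := by
  rw [orderOf_dvd_iff_pow_eq_one, ← map_pow]
  exact QuotientGroup.eq_one_iff _

variable [Finite G]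

theorem relIndex_ne_zero' (K L : Subgroup G) : K.relIndex L ≠ 0 := by
  have : Finite (L ⧸ K.subgroupOf L) := inferInstance
  exact Nat.card_ne_zero.2 ⟨⟨1⟩, this⟩

theorem mem_of_chars (K : Subgroup G) (x : G)
    (h : ∀ φ : G →* ℂˣ, (∀ y ∈ K, φ y = 1) → φ x = 1) : x ∈ K :=
  (CommGroup.forall_monoidHom_apply_eq_one_iff ℂ K x).1 h

theorem base (K : Subgroup G) (χ₀ : G →* ℂˣ) (z : G × ℕ) (h : Cov K χ₀ {z}) :
    cardFactors (K.relIndex (K ⊔ gen {z})) + 1 ≤ wt z := by
  classical
  obtain ⟨a, m⟩ := z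
  rw [gen_singleton, relIndex_zpowers]
  change cardFactors (orderOf (QuotientGroup.mk' K a)) + 1 ≤ wt (a, m)
  have hk : ∀ θ : G →* ℂˣ, (∀ k ∈ K, θ k = 1) → Kills (a, m) (χ₀ * θ) := by
    intro θ hθ
    obtain ⟨z, hz, hz2⟩ := h (χ₀ * θ) (fun k hk => by simp [hθ k hk])
    rw [Finset.mem_singleton] at hz
    rwa [hz] at hz2
  have hk0 : Kills (a, m) χ₀ := by
    have := hk 1 (fun _ _ => rfl)
    have e : χ₀ * 1 = χ₀ := by ext x; simp
    rwa [e] at this
  by_cases hm : m = 0
  · subst hm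
    have ha : a ∈ K := by
      apply mem_of_chars
      intro φ hφ
      have h1 := hk φ hφ
      simp only [Kills, ne_eq, not_true_eq_false, false_and, or_false, true_and,
        MonoidHom.mul_apply] at h1 hk0
      rw [hk0, one_mul] at h1
      exact h1
    have h1 : orderOf (QuotientGroup.mk' K a) = 1 := by
      rw [← Nat.dvd_one, order_dvd_iff]
      simpa using ha
    simp only [h1, wt, cardFactors_one]
    simp
  · have e0 : χ₀ a ≠ 1 ∧ χ₀ a ^ m = 1 := by
      rcases hk0 with h1 | h1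
      · exact absurd h1.1 hm
      · exact h1.2
    let S : Subgroup ℂˣ :=
      { carrier := {ζ | ∃ θ : G →* ℂˣ, (∀ k ∈ K, θ k = 1) ∧ θ a = ζ}
        one_mem' := ⟨1, fun _ _ => rfl, rfl⟩
        mul_mem' := by
          rintro x y ⟨θ, h1, rfl⟩ ⟨θ', h2, rfl⟩
          exact ⟨θ * θ', fun k hk => by simp [h1 k hk, h2 k hk], rfl⟩
        inv_mem' := by
          rintro x ⟨θ, h1, rfl⟩
          exact ⟨θ⁻¹, fun k hk => by simp [h1 k hk], rfl⟩ }
    have hS : S ≤ rootsOfUnity m ℂ := by
      rintro x ⟨θ, h1, rfl⟩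
      rw [mem_rootsOfUnity]
      rcases hk θ h1 with h2 | h2
      · exact absurd h2.1 hm
      · have h3 := h2.2.2
        rw [MonoidHom.mul_apply, mul_pow, e0.2, one_mul] at h3
        exact h3
    have hnot : (χ₀ a)⁻¹ ∉ S := by
      rintro ⟨θ, h1, h2⟩
      rcases hk θ h1 with h3 | h3
      · exact absurd h3.1 hm
      · apply h3.2.1
        simp only [MonoidHom.mul_apply]
        rw [h2]
        exact mul_inv_cancel _
    have hin : (χ₀ a)⁻¹ ∈ rootsOfUnity m ℂ := by
      rw [mem_rootsOfUnity, inv_pow, e0.2, inv_one]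
    have hmne : NeZero m := ⟨hm⟩
    have hcard : Nat.card (rootsOfUnity m ℂ) = m := Complex.card_rootsOfUnity m
    have hfin : Finite (rootsOfUnity m ℂ) := inferInstance
    have hdvd : Nat.card S ∣ m := by
      have := Subgroup.card_dvd_of_le hS
      rwa [hcard] at this
    have hne : Nat.card S ≠ m := by
      intro h1
      have h2 : S = rootsOfUnity m ℂ := by
        have : Finite (rootsOfUnity m ℂ) := inferInstance
        exact Subgroup.eq_of_le_of_card_ge hS (by rw [hcard, h1])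
      rw [h2] at hnot
      exact hnot hin
    have hfinS : Finite S := Finite.of_injective (Subgroup.inclusion hS)
      (Subgroup.inclusion_injective hS)
    have hpow : a ^ (Nat.card S) ∈ K := by
      apply mem_of_chars
      intro φ hφ
      rw [map_pow]
      have h1 : (⟨φ a, ⟨φ, hφ, rfl⟩⟩ : S) ^ (Nat.card S) = 1 := pow_card_eq_one'
      exact congrArg Subtype.val h1
    have h1 : orderOf (QuotientGroup.mk' K a) ∣ Nat.card S := (order_dvd_iff _ _ _).2 hpow
    have h2 := Om_le h1 Nat.card_pos.ne'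
    have h3 := Om_lt hdvd hm hne
    have h4 : wt (a, m) = cardFactors m := by simp [wt, hm]
    rw [h4]
    omega

end Pool.Agent.H875R3.Haj
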