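import Pool.Agent.H875R3.Haj1

set_option autoImplicit false

open ArithmeticFunction

namespace Pool.Agent.H875R3.Haj

variable {G : Type*} [CommGroup G] [Finite G]

open Classical in
/-- irredundance -/
def Irr (K : Subgroup G) (χ₀ : G →* ℂˣ) (J : Finset (G × ℕ)) : Prop :=
  ∀ z ∈ J, ¬ Cov K χ₀ (J.erase z)

theorem Cov.mono {K : Subgroup G} {χ₀ : G →* ℂˣ} {I J : Finset (G × ℕ)} (h : Cov K χ₀ I)
    (hIJ : I ⊆ J) : Cov K χ₀ J := by
  intro χ hχ
  obtain ⟨z, hz, hz2⟩ := h χ hχ
  exact ⟨z, hIJ hz, hz2⟩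

open Classical in
theorem exists_irr (K : Subgroup G) (χ₀ : G →* ℂˣ) (J : Finset (G × ℕ)) (h : Cov K χ₀ J) :
    ∃ I ⊆ J, Cov K χ₀ I ∧ Irr K χ₀ I := by
  obtain ⟨I, hI, hmin⟩ := Finset.exists_min_image (J.powerset.filter (fun I => Cov K χ₀ I))
    Finset.card ⟨J, by simp [h]⟩
  rw [Finset.mem_filter, Finset.mem_powerset] at hI
  refine ⟨I, hI.1, hI.2, ?_⟩
  intro z hz hc
  have h1 := hmin (I.erase z) (by
    rw [Finset.mem_filter, Finset.mem_powerset]
    exact ⟨(Finset.erase_subset _ _).trans hI.1, hc⟩)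
  have h2 := Finset.card_erase_lt_of_mem hz
  omega

theorem Cov.nonempty {K : Subgroup G} {χ₀ : G →* ℂˣ} {J : Finset (G × ℕ)} (h : Cov K χ₀ J) :
    J.Nonempty := by
  obtain ⟨z, hz, -⟩ := h χ₀ (fun _ _ => rfl)
  exact ⟨z, hz⟩

/-- the bound -/
def Bd (K : Subgroup G) (J : Finset (G × ℕ)) : Prop :=
  cardFactors (K.relIndex (K ⊔ gen J)) + 1 ≤ ∑ z ∈ J, wt z

theorem Om_rel_mono (K : Subgroup G) {L M : Subgroup G} (h : L ≤ M) (hK : K ≤ L) :
    cardFactors (K.relIndex L) ≤ cardFactors (K.relIndex M) := by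
  apply Om_le _ (relIndex_ne_zero' K M)
  rw [← Subgroup.relIndex_mul_relIndex K L M hK h]
  exact dvd_mul_right _ _

open Classical in
theorem case1 (n : ℕ)
    (IH : ∀ J' : Finset (G × ℕ), J'.card < n → ∀ (K : Subgroup G) (χ₀ : G →* ℂˣ),
      Cov K χ₀ J' → Irr K χ₀ J' → Bd K J')
    (J : Finset (G × ℕ)) (hJ : J.card = n) (K : Subgroup G) (χ₀ : G →* ℂˣ) (hc : Cov K χ₀ J)
    (hi : Irr K χ₀ J) (I₀ : Finset (G × ℕ)) (hI0 : I₀ ⊆ J) (hne : I₀.Nonempty) (hpr : I₀ ≠ J)
    (hb : cardFactors (K.relIndex (K ⊔ gen I₀)) ≤ ∑ z ∈ I₀, wt z) : Bd K J := by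
  obtain ⟨I, hI, hmax⟩ := Finset.exists_max_image
    (J.powerset.filter (fun I => I.Nonempty ∧ I ≠ J ∧
      cardFactors (K.relIndex (K ⊔ gen I)) ≤ ∑ z ∈ I, wt z)) Finset.card
    ⟨I₀, by simp only [Finset.mem_filter, Finset.mem_powerset]; exact ⟨hI0, hne, hpr, hb⟩⟩
  simp only [Finset.mem_filter, Finset.mem_powerset] at hI hmax
  obtain ⟨hIJ, hIne, hIpr, hIb⟩ := hI
  obtain ⟨j, hjJ, hjI⟩ : ∃ j ∈ J, j ∉ I := by
    by_contra hcon
    push Not at hcon
    exact hIpr (Finset.Subset.antisymm hIJ hcon)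
  have h1 := hi j hjJ
  unfold Cov at h1
  push Not at h1
  obtain ⟨χ, hχ, hχ2⟩ := h1
  set L := K ⊔ gen I with hL
  have hcL : Cov L χ (J \ I) := by
    intro χ' hχ'
    obtain ⟨z, hz, hz2⟩ := hc χ' (fun k hk => by
      rw [hχ' k ((le_sup_left : K ≤ L) hk)]
      exact hχ k hk)
    refine ⟨z, ?_, hz2⟩
    rw [Finset.mem_sdiff]
    refine ⟨hz, fun hzI => ?_⟩
    apply hχ2 z (Finset.mem_erase.2 ⟨fun h => hjI (h ▸ hzI), hz⟩)
    have h3 : χ' z.1 = χ z.1 := hχ' z.1 ((le_sup_right : gen I ≤ L) (mem_gen hzI))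
    unfold Kills at hz2 ⊢
    rw [h3] at hz2
    exact hz2
  obtain ⟨J', hJ', hcJ', hiJ'⟩ := exists_irr L χ _ hcL
  have hJ'ne := hcJ'.nonempty
  have hdisj : Disjoint I J' := by
    rw [Finset.disjoint_left]
    intro z hz hz'
    exact (Finset.mem_sdiff.1 (hJ' hz')).2 hz
  have hJ'J : J' ⊆ J := fun z hz => (Finset.mem_sdiff.1 (hJ' hz)).1
  have hcard : J'.card < n := by
    have h4 : (I ∪ J').card = I.card + J'.card := Finset.card_union_of_disjoint hdisj
    have h5 : (I ∪ J').card ≤ J.card := Finset.card_le_card (Finset.union_subset hIJ hJ'J)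
    have h6 := hIne.card_pos
    omega
  have hB := IH J' hcard L χ hcJ' hiJ'
  unfold Bd at hB
  have hsup : L ⊔ gen J' = K ⊔ gen (I ∪ J') := by
    rw [hL, gen_union, sup_assoc]
  have hmul : cardFactors (K.relIndex (K ⊔ gen (I ∪ J'))) =
      cardFactors (K.relIndex L) + cardFactors (L.relIndex (L ⊔ gen J')) := by
    rw [← hsup, ← Subgroup.relIndex_mul_relIndex K L (L ⊔ gen J') le_sup_left le_sup_left,
      cardFactors_mul (relIndex_ne_zero' _ _) (relIndex_ne_zero' _ _)]
  have hsum : ∑ z ∈ I ∪ J', wt z = ∑ z ∈ I, wt z + ∑ z ∈ J', wt z := Finset.sum_union hdisj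
  have hfin : cardFactors (K.relIndex (K ⊔ gen (I ∪ J'))) + 1 ≤ ∑ z ∈ I ∪ J', wt z := by
    rw [hmul, hsum]
    omega
  by_cases hall : I ∪ J' = J
  · unfold Bd
    rw [← hall]
    exact hfin
  · exfalso
    have h7 := hmax (I ∪ J') ⟨Finset.union_subset hIJ hJ'J,
      hIne.mono Finset.subset_union_left, hall, by omega⟩
    rw [Finset.card_union_of_disjoint hdisj] at h7
    have := hJ'ne.card_pos
    omega

open Classical in
theorem main_bound (n : ℕ) : ∀ J : Finset (G × ℕ), J.card = n → ∀ (K : Subgroup G)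
    (χ₀ : G →* ℂˣ), Cov K χ₀ J → Irr K χ₀ J → Bd K J := by
  induction n using Nat.strong_induction_on with
  | _ n ih =>
    intro J hJ K χ₀ hc hi
    have IH : ∀ J' : Finset (G × ℕ), J'.card < n → ∀ (K : Subgroup G) (χ₀ : G →* ℂˣ),
      Cov K χ₀ J' → Irr K χ₀ J' → Bd K J' := fun J' h K χ₀ h1 h2 => ih J'.card h J' rfl K χ₀ h1 h2
    have hne := hc.nonempty
    by_cases h1 : J.card = 1
    · obtain ⟨z, rfl⟩ := Finset.card_eq_one.1 h1
      unfold Bd
      rw [Finset.sum_singleton]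
      exact base K χ₀ z hc
    have h2 : 2 ≤ J.card := by
      have := hne.card_pos
      omega
    by_cases hex : ∃ z ∈ J, cardFactors (K.relIndex (K ⊔ gen {z})) ≤ wt z
    · obtain ⟨z, hz, hz2⟩ := hex
      refine case1 n IH J hJ K χ₀ hc hi {z} (Finset.singleton_subset_iff.2 hz)
        (Finset.singleton_nonempty z) ?_ (by rwa [Finset.sum_singleton])
      rintro rfl
      simp at h2
    push Not at hex
    obtain ⟨z₀, hz₀⟩ := hne
    have hz := hex z₀ hz₀
    rw [gen_singleton, relIndex_zpowers] at hz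
    set a := z₀.1 with ha
    set m' : ℕ := if z₀.2 = 0 then 1 else z₀.2 with hm'
    have hm'0 : m' ≠ 0 := by
      rw [hm']
      split_ifs with h
      · exact one_ne_zero
      · exact h
    have hwt : cardFactors m' ≤ wt z₀ := by
      rw [hm']
      unfold wt
      split_ifs with h
      · simp
      · exact le_rfl
    have hb : a ^ m' ∉ K := by
      intro hcon
      rw [← order_dvd_iff] at hcon
      have := Om_le hcon hm'0
      omega
    set b := a ^ m' with hbdef
    set N := orderOf (QuotientGroup.mk' K b) with hN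
    have hN0 : 0 < N := by
      rw [hN]
      exact orderOf_pos _
    have hN1 : N ≠ 1 := by
      intro h
      apply hb
      have := (order_dvd_iff K b 1).1 (by rw [← hN, h])
      simpa using this
    set p := N.minFac with hp
    have hpp : p.Prime := Nat.minFac_prime hN1
    obtain ⟨N', hN'⟩ := Nat.minFac_dvd N
    rw [← hp] at hN'
    set c := b ^ N' with hcdef
    have hN'0 : N' ≠ 0 := by
      rintro rfl
      simp at hN'
      omega
    have hordc : orderOf (QuotientGroup.mk' K c) = p := by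
      rw [hcdef, map_pow, orderOf_pow_of_dvd hN'0 (by rw [← hN, hN']; exact dvd_mul_left _ _),
        ← hN]
      conv_lhs => rw [hN']
      exact Nat.mul_div_cancel _ (Nat.pos_of_ne_zero hN'0)
    have hkc : ∀ χ : G →* ℂˣ, Kills z₀ χ → Kills (c, 0) χ := by
      intro χ h
      left
      refine ⟨rfl, ?_⟩
      have h3 : χ b = 1 := by
        rw [hbdef, map_pow, hm']
        rcases h with h | h
        · rw [if_pos h.1, pow_one]
          exact h.2
        · rw [if_neg h.1]
          exact h.2.2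
      change χ c = 1
      rw [hcdef, map_pow, h3, one_pow]
    have hcov1 : Cov K χ₀ (insert (c, 0) (J.erase z₀)) := by
      intro χ hχ
      obtain ⟨z, hz, hz2⟩ := hc χ hχ
      by_cases hzz : z = z₀
      · subst hzz
        exact ⟨_, Finset.mem_insert_self _ _, hkc χ hz2⟩
      · exact ⟨z, Finset.mem_insert_of_mem (Finset.mem_erase.2 ⟨hzz, hz⟩), hz2⟩
    obtain ⟨J₂, hJ₂, hc2, hi2⟩ := exists_irr K χ₀ _ hcov1
    have hcin : (c, 0) ∈ J₂ := by
      by_contra hcon
      apply hi z₀ hz₀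
      apply hc2.mono
      intro z hz
      rcases Finset.mem_insert.1 (hJ₂ hz) with h | h
      · exact absurd (h ▸ hz) hcon
      · exact h
    set I' := J₂.erase (c, 0) with hI'
    have hI'sub : I' ⊆ J.erase z₀ := by
      intro z hz
      obtain ⟨h3, h4⟩ := Finset.mem_erase.1 hz
      rcases Finset.mem_insert.1 (hJ₂ h4) with h | h
      · exact absurd h h3
      · exact h
    have hgc : cardFactors (K.relIndex (K ⊔ gen {((c, 0) : G × ℕ)})) = 1 := by
      rw [gen_singleton, relIndex_zpowers]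
      change cardFactors (orderOf (QuotientGroup.mk' K c)) = 1
      rw [hordc]
      exact cardFactors_apply_prime hpp
    have hwc : wt ((c, 0) : G × ℕ) = 1 := by simp [wt]
    have hI'ne : I'.Nonempty := by
      rw [Finset.nonempty_iff_ne_empty]
      intro hcon
      have h5 : J₂ = {(c, 0)} := by
        rw [← Finset.insert_erase hcin, ← hI', hcon]
        rfl
      rw [h5] at hc2
      have h6 := base K χ₀ (c, 0) hc2
      rw [hgc, hwc] at h6
      omega
    have hcardI : I'.card < J.card :=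
      (Finset.card_le_card hI'sub).trans_lt (Finset.card_erase_lt_of_mem hz₀)
    have hcard2 : J₂.card ≤ n := by
      have h7 : J₂.card = I'.card + 1 := by
        rw [hI', Finset.card_erase_add_one hcin]
      omega
    have hB2 : Bd K J₂ := by
      refine case1 J₂.card (fun J' hJ' => IH J' (by omega)) J₂ rfl K χ₀ hc2 hi2 {(c, 0)}
        (Finset.singleton_subset_iff.2 hcin) (Finset.singleton_nonempty _) ?_ ?_
      · intro hcon
        rw [hI', ← hcon] at hI'ne
        simp at hI'ne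
      · rw [hgc, Finset.sum_singleton, hwc]
    unfold Bd at hB2
    have hsum2 : ∑ z ∈ J₂, wt z = 1 + ∑ z ∈ I', wt z := by
      rw [hI', ← Finset.insert_erase hcin, Finset.sum_insert (Finset.notMem_erase _ _), hwc,
        Finset.insert_erase hcin]
    have hIle : cardFactors (K.relIndex (K ⊔ gen I')) ≤ ∑ z ∈ I', wt z := by
      have h8 : cardFactors (K.relIndex (K ⊔ gen I')) ≤ cardFactors (K.relIndex (K ⊔ gen J₂)) :=
        Om_rel_mono K (sup_le_sup_left (gen_mono (Finset.erase_subset _ _)) K) le_sup_left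
      omega
    refine case1 n IH J hJ K χ₀ hc hi I' (hI'sub.trans (Finset.erase_subset _ _)) hI'ne ?_ hIle
    intro hcon
    rw [hcon] at hcardI
    omega

end Pool.Agent.H875R3.Haj
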