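import Pool.Agent.H875R3.Haj2

set_option autoImplicit false

open ArithmeticFunction

namespace Pool.Agent.H875R3.Haj

variable {G : Type*} [CommGroup G] {ι : Type*} [Fintype ι]

/-- the element with digits `k` -/
def el (a : ι → G) (k : ι → ℕ) : G := ∏ i, a i ^ k i

theorem el_add (a : ι → G) (k l : ι → ℕ) : el a (k + l) = el a k * el a l := by
  unfold el
  rw [← Finset.prod_mul_distrib]
  exact Finset.prod_congr rfl fun i _ => by rw [Pi.add_apply, pow_add]

open Classical in
/-- digit sets supported on `s` -/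
noncomputable def dig (m : ι → ℕ) (s : Finset ι) : Finset (ι → ℕ) :=
  Fintype.piFinset (fun i => if i ∈ s then Finset.range (m i) else {0})

theorem mem_dig (m : ι → ℕ) (s : Finset ι) (k : ι → ℕ) :
    k ∈ dig m s ↔ (∀ i ∈ s, k i < m i) ∧ ∀ i, i ∉ s → k i = 0 := by
  classical
  unfold dig
  rw [Fintype.mem_piFinset]
  constructor
  · intro h
    constructor
    · intro i hi
      have := h i
      rw [if_pos hi] at this
      exact Finset.mem_range.1 this
    · intro i hi
      have := h i
      rw [if_neg hi] at this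
      exact Finset.mem_singleton.1 this
  · rintro ⟨h1, h2⟩ i
    by_cases hi : i ∈ s
    · rw [if_pos hi]
      exact Finset.mem_range.2 (h1 i hi)
    · rw [if_neg hi]
      exact Finset.mem_singleton.2 (h2 i hi)

theorem card_dig (m : ι → ℕ) (s : Finset ι) : (dig m s).card = ∏ i ∈ s, m i := by
  classical
  unfold dig
  rw [Fintype.card_piFinset]
  have : ∀ i, (if i ∈ s then Finset.range (m i) else {0}).card = if i ∈ s then m i else 1 := by
    intro i
    split_ifs <;> simp
  simp_rw [this]
  rw [Finset.prod_ite_mem]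
  simp

/-- the group generated by the `a i`, `i ∈ s` -/
def gp (a : ι → G) (s : Finset ι) : Subgroup G := Subgroup.closure (a '' (s : Set ι))

theorem gp_mono (a : ι → G) {s t : Finset ι} (h : s ⊆ t) : gp a s ≤ gp a t :=
  Subgroup.closure_mono (Set.image_mono (by exact_mod_cast h))

theorem el_mem_gp (a : ι → G) (s : Finset ι) (k : ι → ℕ) (hk : ∀ i, i ∉ s → k i = 0) :
    el a k ∈ gp a s := by
  classical
  unfold el
  apply Subgroup.prod_mem
  intro i _
  by_cases hi : i ∈ s
  · exact Subgroup.pow_mem _ (Subgroup.subset_closure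
      (Set.mem_image_of_mem a (Finset.mem_coe.2 hi))) _
  · rw [hk i hi, pow_zero]
    exact Subgroup.one_mem _

/-- every element of the group has a digit expansion -/
def Full (a : ι → G) (m : ι → ℕ) (s : Finset ι) : Prop :=
  ∀ g ∈ gp a s, ∃ k ∈ dig m s, el a k = g

theorem geom_kill {x : ℂˣ} {m : ℕ} (hm : 2 ≤ m) (h : ∑ j ∈ Finset.range m, (x : ℂ) ^ j = 0) :
    x ≠ 1 ∧ x ^ m = 1 := by
  constructor
  · rintro rfl
    simp at h
    omega
  · have h1 := geom_sum_mul (x : ℂ) m
    rw [h, zero_mul] at h1
    have h2 : (x : ℂ) ^ m = 1 := by linear_combination -h1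
    exact Units.ext (by push_cast; exact h2)

variable [Finite G]

theorem kill_of_full (a : ι → G) (m : ι → ℕ) (hm : ∀ i, 2 ≤ m i) (s : Finset ι)
    (hinj : ∀ k ∈ dig m s, ∀ l ∈ dig m s, el a k = el a l → k = l) (hs : Full a m s)
    (χ : G →* ℂˣ) (g₀ : G) (hg₀ : g₀ ∈ gp a s) (hχ : χ g₀ ≠ 1) :
    ∃ i ∈ s, Kills (a i, m i) χ := by
  classical
  have : Fintype (gp a s) := Fintype.ofFinite _
  have h1 : ∑ g : gp a s, ((Units.coeHom ℂ).comp (χ.comp (gp a s).subtype)) g = 0 := by
    apply sum_hom_units_eq_zero
    intro h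
    apply hχ
    have := DFunLike.congr_fun h ⟨g₀, hg₀⟩
    simpa using this
  have h2 : ∑ k ∈ dig m s, ∏ i, (χ (a i) : ℂ) ^ k i = 0 := by
    rw [← h1]
    refine Finset.sum_bij (fun k hk => (⟨el a k, el_mem_gp a s k ((mem_dig m s k).1 hk).2⟩ :
      gp a s)) (fun _ _ => Finset.mem_univ _) ?_ ?_ ?_
    · intro k hk l hl h
      exact hinj k hk l hl (congrArg Subtype.val h)
    · rintro ⟨g, hg⟩ -
      obtain ⟨k, hk, hk2⟩ := hs g hg
      exact ⟨k, hk, Subtype.ext hk2⟩
    · intro k hk
      simp [el]
  unfold dig at h2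
  rw [← Finset.prod_univ_sum] at h2
  obtain ⟨i, -, hi⟩ := Finset.prod_eq_zero_iff.1 h2
  by_cases his : i ∈ s
  · rw [if_pos his] at hi
    refine ⟨i, his, Or.inr ⟨by have := hm i; simp only; omega, ?_⟩⟩
    exact geom_kill (hm i) hi
  · rw [if_neg his] at hi
    simp at hi

theorem hajos_aux (a : ι → G) (m : ι → ℕ) (hm : ∀ i, 2 ≤ m i)
    (hinj : ∀ k ∈ dig m Finset.univ, ∀ l ∈ dig m Finset.univ, el a k = el a l → k = l)
    (hex : Full a m Finset.univ) (htop : gp a Finset.univ = ⊤) (n : ℕ) :
    ∀ s : Finset ι, s.card = n → s.Nonempty → Full a m s → ∃ i ∈ s, a i ^ m i = 1 := by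
  classical
  induction n using Nat.strong_induction_on with
  | _ n ih =>
    intro s hsn hne hs
    have hsub : ∀ s : Finset ι, dig m s ⊆ dig m Finset.univ := by
      intro s k hk
      rw [mem_dig] at hk ⊢
      refine ⟨fun i _ => ?_, fun i hi => absurd (Finset.mem_univ i) hi⟩
      by_cases hi : i ∈ s
      · exact hk.1 i hi
      · rw [hk.2 i hi]
        have := hm i
        omega
    have hinjs : ∀ s : Finset ι, ∀ k ∈ dig m s, ∀ l ∈ dig m s, el a k = el a l → k = l :=
      fun s k hk l hl h => hinj k (hsub s hk) l (hsub s hl) h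
    have hainj : Function.Injective (fun i => (a i, m i)) := by
      intro i j hij
      have h1 : a i = a j := congrArg Prod.fst hij
      have hsing : ∀ i, (Pi.single i 1 : ι → ℕ) ∈ dig m Finset.univ := by
        intro i
        rw [mem_dig]
        refine ⟨fun j _ => ?_, fun j hj => absurd (Finset.mem_univ j) hj⟩
        have := hm j
        by_cases h : j = i
        · subst h
          rw [Pi.single_eq_same]
          omega
        · rw [Pi.single_eq_of_ne h]
          omega
      have hel : ∀ i, el a (Pi.single i 1) = a i := by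
        intro i
        unfold el
        rw [Finset.prod_eq_single i]
        · simp
        · intro j _ hj
          simp [Pi.single_eq_of_ne hj]
        · intro h
          exact absurd (Finset.mem_univ i) h
      have h2 := hinj _ (hsing i) _ (hsing j) (by rw [hel, hel, h1])
      by_contra hne
      have h3 := congrFun h2 i
      rw [Pi.single_eq_same, Pi.single_eq_of_ne hne] at h3
      exact one_ne_zero h3
    obtain ⟨i₀, hi₀⟩ := hne
    set c := a i₀ ^ m i₀ with hc
    by_cases hc1 : c = 1
    · exact ⟨i₀, hi₀, hc1⟩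
    -- the cover
    have hcov : Cov ⊥ 1 (insert (c, 0) ((s.erase i₀).image (fun i => (a i, m i)))) := by
      intro χ _
      by_cases htriv : ∀ g ∈ gp a s, χ g = 1
      · refine ⟨_, Finset.mem_insert_self _ _, Or.inl ⟨rfl, ?_⟩⟩
        apply htriv
        exact Subgroup.pow_mem _ (Subgroup.subset_closure
          (Set.mem_image_of_mem a (Finset.mem_coe.2 hi₀))) _
      · push Not at htriv
        obtain ⟨g₀, hg₀, hg₀'⟩ := htriv
        obtain ⟨i, hi, hik⟩ := kill_of_full a m hm s (hinjs s) hs χ g₀ hg₀ hg₀'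
        by_cases hii : i = i₀
        · subst hii
          refine ⟨_, Finset.mem_insert_self _ _, Or.inl ⟨rfl, ?_⟩⟩
          rcases hik with h | h
          · have := hm i
            have := h.1
            simp only at this
            omega
          · change χ (a i ^ m i) = 1
            rw [map_pow]
            exact h.2.2
        · exact ⟨_, Finset.mem_insert_of_mem (Finset.mem_image.2
            ⟨i, Finset.mem_erase.2 ⟨hii, hi⟩, rfl⟩), hik⟩
    obtain ⟨J, hJ, hcJ, hiJ⟩ := exists_irr ⊥ 1 _ hcov
    have hcin : (c, 0) ∈ J := by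
      obtain ⟨z, hz, hz2⟩ := hcJ 1 (fun _ _ => rfl)
      rcases hz2 with h | h
      · rcases Finset.mem_insert.1 (hJ hz) with h1 | h1
        · exact h1 ▸ hz
        · obtain ⟨i, -, rfl⟩ := Finset.mem_image.1 h1
          have := hm i
          have := h.1
          simp only at this
          omega
      · exact absurd rfl h.2.1
    set I := (s.erase i₀).filter (fun i => (a i, m i) ∈ J) with hI
    have hJI : J.erase (c, 0) ⊆ I.image (fun i => (a i, m i)) := by
      intro z hz
      obtain ⟨h1, h2⟩ := Finset.mem_erase.1 hz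
      rcases Finset.mem_insert.1 (hJ h2) with h | h
      · exact absurd h h1
      · obtain ⟨i, hi, rfl⟩ := Finset.mem_image.1 h
        exact Finset.mem_image.2 ⟨i, Finset.mem_filter.2 ⟨hi, h2⟩, rfl⟩
    have hIs : I ⊆ s.erase i₀ := Finset.filter_subset _ _
    have hIne : I.Nonempty := by
      rw [Finset.nonempty_iff_ne_empty]
      intro hcon
      rw [hcon, Finset.image_empty] at hJI
      apply hc1
      have : c ∈ (⊥ : Subgroup G) := by
        apply mem_of_chars
        intro φ _
        obtain ⟨z, hz, hz2⟩ := hcJ φ (fun k hk => by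
          rw [Subgroup.mem_bot] at hk
          rw [hk, map_one, map_one])
        have hzc : z = (c, 0) := by
          by_contra hne
          exact absurd (hJI (Finset.mem_erase.2 ⟨hne, hz⟩)) (Finset.notMem_empty _)
        rw [hzc] at hz2
        rcases hz2 with h | h
        · exact h.2
        · exact absurd rfl h.1
      rwa [Subgroup.mem_bot] at this
    have hB := main_bound J.card J rfl ⊥ 1 hcJ hiJ
    unfold Bd at hB
    have hwt : ∀ i, wt (a i, m i) = cardFactors (m i) := by
      intro i
      unfold wt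
      rw [if_neg]
      have := hm i
      simp only
      omega
    have hsumJ : ∑ z ∈ J, wt z ≤ 1 + ∑ i ∈ I, cardFactors (m i) := by
      rw [← Finset.insert_erase hcin, Finset.sum_insert (Finset.notMem_erase _ _)]
      have h1 : wt ((c, 0) : G × ℕ) = 1 := by simp [wt]
      have h2 : ∑ z ∈ J.erase (c, 0), wt z ≤ ∑ z ∈ I.image (fun i => (a i, m i)), wt z :=
        Finset.sum_le_sum_of_subset hJI
      rw [Finset.sum_image (fun x _ y _ h => hainj h)] at h2
      simp_rw [hwt] at h2
      rw [h1]
      omega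
    have hprodm : cardFactors (∏ i ∈ I, m i) = ∑ i ∈ I, cardFactors (m i) := by
      have key : ∀ t : Finset ι, cardFactors (∏ i ∈ t, m i) = ∑ i ∈ t, cardFactors (m i) := by
        intro t
        induction t using Finset.induction_on with
        | empty => simp
        | insert i t hi iht =>
          rw [Finset.prod_insert hi, Finset.sum_insert hi, cardFactors_mul, iht]
          · have := hm i
            omega
          · rw [Finset.prod_ne_zero_iff]
            intro j _
            have := hm j
            omega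
      exact key I
    have hgI : gp a I ≤ gen J := by
      unfold gp gen
      apply Subgroup.closure_mono
      rintro _ ⟨i, hi, rfl⟩
      exact ⟨(a i, m i), by
        have : i ∈ I := by exact_mod_cast hi
        exact_mod_cast (Finset.mem_filter.1 this).2, rfl⟩
    have hOm : cardFactors (Nat.card (gp a I)) ≤ cardFactors (∏ i ∈ I, m i) := by
      have h1 : cardFactors ((⊥ : Subgroup G).relIndex (gp a I)) ≤
          cardFactors ((⊥ : Subgroup G).relIndex (⊥ ⊔ gen J)) :=
        Om_rel_mono ⊥ (hgI.trans le_sup_right) bot_le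
      rw [Subgroup.relIndex_bot_left] at h1
      omega
    -- the decomposition
    let R : Set G := {r | r ∈ gp a I ∧ ∃ k ∈ dig m (Finset.univ \ I), el a k = r}
    have hfull : ∀ g : G, ∃ k ∈ dig m Finset.univ, el a k = g := by
      intro g
      exact hex g (by rw [htop]; exact Subgroup.mem_top g)
    have hsplit : ∀ k ∈ dig m Finset.univ, ∃ k₁ ∈ dig m I, ∃ k₂ ∈ dig m (Finset.univ \ I),
        k = k₁ + k₂ := by
      intro k hk
      rw [mem_dig] at hk
      refine ⟨fun i => if i ∈ I then k i else 0, ?_, fun i => if i ∈ I then 0 else k i, ?_, ?_⟩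
      · rw [mem_dig]
        refine ⟨fun i hi => ?_, fun i hi => ?_⟩
        · rw [if_pos hi]
          exact hk.1 i (Finset.mem_univ i)
        · rw [if_neg hi]
      · rw [mem_dig]
        refine ⟨fun i hi => ?_, fun i hi => ?_⟩
        · rw [if_neg (Finset.mem_sdiff.1 hi).2]
          exact hk.1 i (Finset.mem_univ i)
        · rw [Finset.mem_sdiff] at hi
          push Not at hi
          rw [if_pos (hi (Finset.mem_univ i))]
      · funext i
        simp only [Pi.add_apply]
        split_ifs <;> simp
    have hadd : ∀ k₁ ∈ dig m I, ∀ k₂ ∈ dig m (Finset.univ \ I), k₁ + k₂ ∈ dig m Finset.univ := by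
      intro k₁ h1 k₂ h2
      rw [mem_dig] at h1 h2 ⊢
      refine ⟨fun i _ => ?_, fun i hi => absurd (Finset.mem_univ i) hi⟩
      rw [Pi.add_apply]
      by_cases hi : i ∈ I
      · rw [h2.2 i (by rw [Finset.mem_sdiff]; tauto), add_zero]
        exact h1.1 i hi
      · rw [h1.2 i hi, zero_add]
        exact h2.1 i (by rw [Finset.mem_sdiff]; exact ⟨Finset.mem_univ i, hi⟩)
    let F : (dig m I) × R → gp a I := fun x =>
      ⟨el a x.1.1 * x.2.1, Subgroup.mul_mem _
        (el_mem_gp a I x.1.1 ((mem_dig m I _).1 x.1.2).2) x.2.2.1⟩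
    have hF : Function.Bijective F := by
      constructor
      · rintro ⟨⟨k, hk⟩, ⟨r, hr, l, hl, rfl⟩⟩ ⟨⟨k', hk'⟩, ⟨r', hr', l', hl', rfl⟩⟩ h
        have h1 : el a k * el a l = el a k' * el a l' := congrArg Subtype.val h
        rw [← el_add, ← el_add] at h1
        have h2 := hinj _ (hadd k hk l hl) _ (hadd k' hk' l' hl') h1
        have h3 : k = k' := by
          funext i
          by_cases hi : i ∈ I
          · have := congrFun h2 i
            rw [Pi.add_apply, Pi.add_apply, ((mem_dig _ _ _).1 hl).2 i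
              (by rw [Finset.mem_sdiff]; tauto), ((mem_dig _ _ _).1 hl').2 i
              (by rw [Finset.mem_sdiff]; tauto)] at this
            simpa using this
          · rw [((mem_dig _ _ _).1 hk).2 i hi, ((mem_dig _ _ _).1 hk').2 i hi]
        have h4 : l = l' := by
          subst h3
          funext i
          have := congrFun h2 i
          rw [Pi.add_apply, Pi.add_apply] at this
          omega
        subst h3 h4
        rfl
      · rintro ⟨g, hg⟩
        obtain ⟨k, hk, rfl⟩ := hfull g
        obtain ⟨k₁, h1, k₂, h2, rfl⟩ := hsplit k hk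
        have h3 := el_mem_gp a I k₁ ((mem_dig m I _).1 h1).2
        refine ⟨⟨⟨k₁, h1⟩, ⟨el a k₂, ?_, k₂, h2, rfl⟩⟩, Subtype.ext (el_add a k₁ k₂).symm⟩
        rw [el_add] at hg
        exact (Subgroup.mul_mem_cancel_left _ h3).1 hg
    have hcardF := Nat.card_congr (Equiv.ofBijective F hF)
    rw [Nat.card_prod, Nat.card_eq_fintype_card, Fintype.card_coe, card_dig] at hcardF
    have hRfin : Finite R := inferInstance
    have hR0 : Nat.card R ≠ 0 := by
      intro h0
      rw [h0, mul_zero] at hcardF
      exact Nat.card_pos.ne' hcardF.symm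
    have hprod0 : ∏ i ∈ I, m i ≠ 0 := by
      rw [Finset.prod_ne_zero_iff]
      intro j _
      have := hm j
      omega
    rw [← hcardF, cardFactors_mul hprod0 hR0] at hOm
    have hR1 : Nat.card R = 1 := by
      have : cardFactors (Nat.card R) = 0 := by omega
      rw [cardFactors_eq_zero_iff_eq_zero_or_one] at this
      tauto
    have hFI : Full a m I := by
      intro g hg
      obtain ⟨⟨⟨k, hk⟩, r⟩, hx⟩ := hF.2 ⟨g, hg⟩
      refine ⟨k, hk, ?_⟩
      have h1 : el a k * r.1 = g := congrArg Subtype.val hx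
      have h2 : (1 : G) ∈ R := by
        refine ⟨Subgroup.one_mem _, 0, ?_, ?_⟩
        · rw [mem_dig]
          refine ⟨fun i _ => ?_, fun i _ => rfl⟩
          have := hm i
          simp only [Pi.zero_apply]
          omega
        · simp [el]
      have h3 : r = ⟨1, h2⟩ := by
        have : Subsingleton R := (Nat.card_eq_one_iff_unique.1 hR1).1
        exact Subsingleton.elim _ _
      rw [h3, mul_one] at h1
      exact h1
    obtain ⟨i, hi, hi2⟩ := ih I.card (by
      have h1 := Finset.card_le_card hIs
      have h2 := Finset.card_erase_lt_of_mem hi₀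
      omega) I rfl hIne hFI
    exact ⟨i, Finset.mem_of_mem_erase (hIs hi), hi2⟩

omit [Finite G] in
/-- **Hajós' theorem**: if a commutative group is the direct product of the cyclic subsets
`{1, a_i, …, a_i ^ (m_i - 1)}`, `m_i ≥ 2`, then one of them is a subgroup. -/
theorem hajos [Nonempty ι] (a : ι → G) (m : ι → ℕ) (hm : ∀ i, 2 ≤ m i)
    (h : ∀ g : G, ∃! k : ι → ℕ, (∀ i, k i < m i) ∧ ∏ i, a i ^ k i = g) :
    ∃ i, a i ^ m i = 1 := by
  classical
  have hmem : ∀ k : ι → ℕ, k ∈ dig m Finset.univ ↔ ∀ i, k i < m i := by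
    intro k
    rw [mem_dig]
    exact ⟨fun h i => h.1 i (Finset.mem_univ i),
      fun h => ⟨fun i _ => h i, fun i hi => absurd (Finset.mem_univ i) hi⟩⟩
  have hfin : Finite G := by
    apply Finite.of_surjective (fun k : dig m (Finset.univ : Finset ι) => el a k.1)
    intro g
    obtain ⟨k, ⟨hk, hk2⟩, -⟩ := h g
    exact ⟨⟨k, (hmem k).2 hk⟩, hk2⟩
  have htop : gp a Finset.univ = ⊤ := by
    rw [eq_top_iff]
    intro g _
    obtain ⟨k, ⟨hk, rfl⟩, -⟩ := h g
    exact el_mem_gp a Finset.univ k (fun i hi => absurd (Finset.mem_univ i) hi)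
  obtain ⟨i, -, hi⟩ := hajos_aux a m hm (fun k hk l hl hkl => by
      obtain ⟨k', -, hk'⟩ := h (el a k)
      rw [hk' k ⟨(hmem k).1 hk, rfl⟩, hk' l ⟨(hmem l).1 hl, hkl.symm⟩])
    (fun g _ => by
      obtain ⟨k, ⟨hk, hk2⟩, -⟩ := h g
      exact ⟨k, (hmem k).2 hk, hk2⟩) htop _ Finset.univ rfl Finset.univ_nonempty
    (fun g _ => by
      obtain ⟨k, ⟨hk, hk2⟩, -⟩ := h g
      exact ⟨k, (hmem k).2 hk, hk2⟩)
  exact ⟨i, hi⟩

end Pool.Agent.H875R3.Haj
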