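import Pool.Agent.H875R3.Haj3

set_option autoImplicit false

open Filter Topology

namespace Pool.Agent.H875R3.Haj

/-- the half open unit cubes with lowest corners `pos x`, `x : T`, tile the space -/
def IsTiling {T : Type*} {n : ℕ} (pos : T → Fin n → ℝ) : Prop :=
  ∀ p : Fin n → ℝ, ∃! x : T, ∀ j, pos x j ≤ p j ∧ p j < pos x j + 1

section shift

variable {T : Type*} {n : ℕ} {pos : T → Fin n → ℝ}

theorem add_int_of_add_one {φ : ℝ → ℝ} (hφ : ∀ t, φ (t + 1) = φ t + 1) (t : ℝ) (k : ℤ) :
    φ (t + k) = φ t + k := by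
  induction k using Int.induction_on with
  | zero => simp
  | succ k ih =>
    push_cast at ih ⊢
    rw [← add_assoc, hφ, ih, add_assoc]
  | pred k ih =>
    push_cast at ih ⊢
    have h := hφ (t + (-(k:ℝ) - 1))
    have e : t + (-(k:ℝ) - 1) + 1 = t + -(k:ℝ) := by ring
    rw [e, ih] at h
    linarith

theorem IsTiling.shift (h : IsTiling pos) (i : Fin n) (φ : ℝ → ℝ)
    (hφ : ∀ t, φ (t + 1) = φ t + 1) :
    IsTiling (fun x => Function.update (pos x) i (φ (pos x i))) := by
  intro p
  -- the cubes which meet the line through `p`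
  set S : Set T := {x | ∀ j, j ≠ i → pos x j ≤ p j ∧ p j < pos x j + 1} with hS
  have F1 : ∀ t : ℝ, ∃ x ∈ S, pos x i ≤ t ∧ t < pos x i + 1 := by
    intro t
    obtain ⟨x, hx, -⟩ := h (Function.update p i t)
    refine ⟨x, ?_, ?_⟩
    · intro j hj
      have := hx j
      rwa [Function.update_of_ne hj] at this
    · have := hx i
      rwa [Function.update_self] at this
  have F1u : ∀ t : ℝ, ∀ x ∈ S, ∀ y ∈ S, pos x i ≤ t → t < pos x i + 1 → pos y i ≤ t →
      t < pos y i + 1 → x = y := by
    intro t x hx y hy h1 h2 h3 h4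
    refine (h (Function.update p i t)).unique ?_ ?_
    · intro j
      by_cases hj : j = i
      · subst hj
        rw [Function.update_self]
        exact ⟨h1, h2⟩
      · rw [Function.update_of_ne hj]
        exact hx j hj
    · intro j
      by_cases hj : j = i
      · subst hj
        rw [Function.update_self]
        exact ⟨h3, h4⟩
      · rw [Function.update_of_ne hj]
        exact hy j hj
  have next : ∀ x ∈ S, ∃ y ∈ S, pos y i = pos x i + 1 := by
    intro x hx
    obtain ⟨y, hy, h1, h2⟩ := F1 (pos x i + 1)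
    refine ⟨y, hy, ?_⟩
    rcases h1.lt_or_eq with h3 | h3
    · exfalso
      have h4 : x = y := F1u (max (pos y i) (pos x i)) x hx y hy (le_max_right _ _)
        (max_lt h3 (by linarith)) (le_max_left _ _) (max_lt (by linarith) (by linarith))
      rw [← h4] at h2
      linarith
    · exact h3
  have prev : ∀ x ∈ S, ∃ y ∈ S, pos y i = pos x i - 1 := by
    intro x hx
    obtain ⟨y, hy, h1, h2⟩ := F1 (pos x i - 1)
    obtain ⟨z, hz, hz2⟩ := next y hy
    have h3 : z = x := F1u (pos x i) z hz x hx (by linarith) (by linarith) le_rfl (by linarith)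
    refine ⟨y, hy, ?_⟩
    rw [h3] at hz2
    linarith
  have all : ∀ x ∈ S, ∀ k : ℤ, ∃ y ∈ S, pos y i = pos x i + k := by
    intro x hx k
    induction k using Int.induction_on with
    | zero => exact ⟨x, hx, by simp⟩
    | succ k ih =>
      obtain ⟨y, hy, hy2⟩ := ih
      obtain ⟨z, hz, hz2⟩ := next y hy
      refine ⟨z, hz, ?_⟩
      rw [hz2, hy2]
      push_cast
      ring
    | pred k ih =>
      obtain ⟨y, hy, hy2⟩ := ih
      obtain ⟨z, hz, hz2⟩ := prev y hy
      refine ⟨z, hz, ?_⟩
      rw [hz2, hy2]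
      push_cast
      ring
  have diff : ∀ x ∈ S, ∀ y ∈ S, ∃ k : ℤ, pos y i = pos x i + k := by
    intro x hx y hy
    obtain ⟨z, hz, hz2⟩ := all x hx ⌊pos y i - pos x i⌋
    have h1 := Int.floor_le (pos y i - pos x i)
    have h2 := Int.lt_floor_add_one (pos y i - pos x i)
    have h3 : z = y := F1u (pos y i) z hz y hy (by linarith) (by linarith) le_rfl (by linarith)
    exact ⟨_, by rw [← h3]; exact hz2⟩
  have conv : ∀ x : T, (∀ j, Function.update (pos x) i (φ (pos x i)) j ≤ p j ∧
      p j < Function.update (pos x) i (φ (pos x i)) j + 1) ↔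
      x ∈ S ∧ φ (pos x i) ≤ p i ∧ p i < φ (pos x i) + 1 := by
    intro x
    constructor
    · intro hx
      refine ⟨fun j hj => ?_, ?_⟩
      · have := hx j
        rwa [Function.update_of_ne hj] at this
      · have := hx i
        rwa [Function.update_self] at this
    · rintro ⟨h1, h2⟩ j
      by_cases hj : j = i
      · subst hj
        rw [Function.update_self]
        exact h2
      · rw [Function.update_of_ne hj]
        exact h1 j hj
  obtain ⟨x₀, hx₀, -⟩ := F1 0
  obtain ⟨y, hy, hy2⟩ := all x₀ hx₀ ⌊p i - φ (pos x₀ i)⌋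
  have h1 := Int.floor_le (p i - φ (pos x₀ i))
  have h2 := Int.lt_floor_add_one (p i - φ (pos x₀ i))
  have h3 : φ (pos y i) = φ (pos x₀ i) + ⌊p i - φ (pos x₀ i)⌋ := by
    rw [hy2, add_int_of_add_one hφ]
  refine ⟨y, (conv y).2 ⟨hy, by linarith, by linarith⟩, ?_⟩
  intro z hz
  obtain ⟨hz1, hz2, hz3⟩ := (conv z).1 hz
  obtain ⟨k, hk⟩ := diff y hy z hz1
  have h4 : φ (pos z i) = φ (pos y i) + k := by rw [hk, add_int_of_add_one hφ]
  have h5 : k = 0 := by
    have h6 : (k : ℝ) < 1 := by linarith
    have h7 : (-1 : ℝ) < k := by linarith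
    have h8 : k < 1 := by exact_mod_cast h6
    have h9 : -1 < k := by exact_mod_cast h7
    omega
  rw [h5] at hk
  push_cast at hk
  exact F1u (pos y i) z hz1 y hy (by linarith) (by linarith) le_rfl (by linarith)

theorem IsTiling.map (h : IsTiling pos) (φ : Fin n → ℝ → ℝ)
    (hφ : ∀ j t, φ j (t + 1) = φ j t + 1) : IsTiling (fun x j => φ j (pos x j)) := by
  classical
  have key : ∀ S : Finset (Fin n), IsTiling (fun x j => if j ∈ S then φ j (pos x j) else pos x j) := by
    intro S
    induction S using Finset.induction_on with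
    | empty => simpa using h
    | insert i S hi ih =>
      have h1 := ih.shift i (φ i) (hφ i)
      convert h1 using 2 with x
      funext j
      by_cases hj : j = i
      · subst hj
        simp [hi]
      · simp [hj, Finset.mem_insert]
  simpa using key Finset.univ

end shift

theorem exists_approx : ∃ ψ : ℕ → ℝ →ₗ[ℚ] ℚ, (∀ k, ψ k 1 = 1) ∧
    ∀ s : ℝ, Tendsto (fun k => ((ψ k s : ℚ) : ℝ)) atTop (𝓝 s) := by
  classical
  have hli : LinearIndependent ℚ (fun _ : Unit => (1 : ℝ)) := by
    rw [linearIndependent_unique_iff]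
    exact one_ne_zero
  have hli' : LinearIndepOn ℚ id ({1} : Set ℝ) := by
    rw [linearIndepOn_singleton_iff]
    exact one_ne_zero
  let B := Module.Basis.extend hli'
  have h1mem : (1 : ℝ) ∈ hli'.extend (Set.subset_univ _) := hli'.subset_extend _ rfl
  have hq : ∀ (k : ℕ) (b : ℝ), ∃ q : ℚ, |(q : ℝ) - b| < 1 / (k + 1) := by
    intro k b
    obtain ⟨q, hq1, hq2⟩ := exists_rat_btwn (show b < b + 1 / ((k:ℝ) + 1) by
      have : (0:ℝ) < 1 / ((k:ℝ) + 1) := by positivity
      linarith)
    refine ⟨q, ?_⟩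
    rw [abs_lt]
    constructor
    · have : (0:ℝ) < 1 / ((k:ℝ) + 1) := by positivity
      linarith
    · linarith
  choose q hq using hq
  let v : ℕ → (hli'.extend (Set.subset_univ _)) → ℚ := fun k b => if (b : ℝ) = 1 then 1 else q k b
  refine ⟨fun k => B.constr ℚ (v k), ?_, ?_⟩
  · intro k
    have h2 : B ⟨1, h1mem⟩ = 1 := by simp [B]
    have h3 := B.constr_basis ℚ (v k) ⟨1, h1mem⟩
    rw [h2] at h3
    rw [h3]
    simp [v]
  · intro s
    have h4 : ∀ k, (((B.constr ℚ (v k)) s : ℚ) : ℝ) = (B.repr s).sum (fun b c => (c : ℝ) * (v k b : ℝ)) := by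
      intro k
      rw [Module.Basis.constr_apply]
      rw [Finsupp.sum, Finsupp.sum]
      push_cast
      refine Finset.sum_congr rfl fun b _ => ?_
      simp
    have h5 : s = (B.repr s).sum (fun b c => (c : ℝ) * (b : ℝ)) := by
      conv_lhs => rw [← B.linearCombination_repr s, Finsupp.linearCombination_apply]
      refine Finsupp.sum_congr fun b _ => ?_
      rw [Rat.smul_def]
      simp [B]
    simp_rw [h4]
    conv => rhs; rw [h5]
    unfold Finsupp.sum
    apply tendsto_finset_sum
    intro b _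
    apply Tendsto.const_mul
    have h6 : ∀ k, |(v k b : ℝ) - b| ≤ 1 / ((k:ℝ) + 1) := by
      intro k
      by_cases hb : (b : ℝ) = 1
      · simp only [v, hb, if_true]
        simp
        positivity
      · simp only [v, hb, if_false]
        exact (hq k b).le
    rw [tendsto_iff_dist_tendsto_zero]
    refine squeeze_zero (fun _ => dist_nonneg) (fun k => ?_) tendsto_one_div_add_atTop_nhds_zero_nat
    rw [Real.dist_eq]
    exact h6 k

end Pool.Agent.H875R3.Haj
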