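import Pool.Agent.H875R3.Haj4

set_option autoImplicit false

open Filter Topology Set

namespace Pool.Agent.H875R3.Haj

section rational

variable {T : Type*} [AddCommGroup T] {n : ℕ}

/-- the integer lattice attached to a rational tiling lattice -/
def latt (pos : T →+ (Fin n → ℝ)) (N : ℕ) : AddSubgroup (Fin n → ℤ) where
  carrier := {z | ∃ x, ∀ j, (z j : ℝ) = N * pos x j}
  zero_mem' := ⟨0, by simp⟩
  add_mem' := by
    rintro a b ⟨x, hx⟩ ⟨y, hy⟩
    refine ⟨x + y, fun j => ?_⟩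
    rw [map_add, Pi.add_apply, Pi.add_apply]
    push_cast
    rw [hx, hy]
    ring
  neg_mem' := by
    rintro a ⟨x, hx⟩
    refine ⟨-x, fun j => ?_⟩
    rw [map_neg, Pi.neg_apply, Pi.neg_apply]
    push_cast
    rw [hx]
    ring

theorem mem_latt (pos : T →+ (Fin n → ℝ)) (N : ℕ) (z : Fin n → ℤ) :
    z ∈ latt pos N ↔ ∃ x, ∀ j, (z j : ℝ) = N * pos x j := Iff.rfl

theorem hajos_rational (hn : 0 < n) (pos : T →+ (Fin n → ℝ)) (hT : IsTiling (fun x => pos x))
    (N : ℕ) (hN : 2 ≤ N) (hint : ∀ x j, ∃ z : ℤ, (N : ℝ) * pos x j = z) :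
    ∃ (i : Fin n) (x : T), pos x = Pi.single i 1 := by
  classical
  have : Nonempty (Fin n) := ⟨⟨0, hn⟩⟩
  have hN0 : (0 : ℝ) < N := by
    have : (2 : ℝ) ≤ N := by exact_mod_cast hN
    linarith
  let L := latt pos N
  let a : Fin n → Multiplicative ((Fin n → ℤ) ⧸ L) := fun i =>
    Multiplicative.ofAdd (QuotientAddGroup.mk (Pi.single i 1))
  have hprod : ∀ k : Fin n → ℕ, ∏ i, a i ^ k i =
      Multiplicative.ofAdd (QuotientAddGroup.mk (fun i => (k i : ℤ))) := by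
    intro k
    have h1 : (fun i => (k i : ℤ)) = ∑ i, k i • (Pi.single i (1 : ℤ) : Fin n → ℤ) := by
      funext j
      simp [Finset.sum_apply, Pi.single_apply]
    rw [h1]
    have h2 : ((QuotientAddGroup.mk (∑ i, k i • (Pi.single i (1 : ℤ) : Fin n → ℤ)) :
        (Fin n → ℤ) ⧸ L)) = ∑ i, k i • (QuotientAddGroup.mk (Pi.single i (1 : ℤ)) : (Fin n → ℤ) ⧸ L) := by
      exact map_sum (QuotientAddGroup.mk' L) _ _
    rw [h2, ofAdd_sum]
    rfl
  have key := Pool.Agent.H875R3.Haj.hajos a (fun _ => N) (fun _ => hN) ?_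
  · obtain ⟨i, hi⟩ := key
    have h1 : N • (Pi.single i (1 : ℤ) : Fin n → ℤ) ∈ L := by
      have h2 : (QuotientAddGroup.mk (N • (Pi.single i (1 : ℤ) : Fin n → ℤ)) : (Fin n → ℤ) ⧸ L) = 0 := by
        exact hi
      rwa [QuotientAddGroup.eq_zero_iff] at h2
    obtain ⟨x, hx⟩ := h1
    refine ⟨i, x, ?_⟩
    funext j
    have h3 := hx j
    rw [Pi.smul_apply] at h3
    by_cases hj : j = i
    · subst hj
      simp only [Pi.single_eq_same] at h3 ⊢
      simp at h3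
      have : (N : ℝ) * pos x j = N * 1 := by linarith
      exact mul_left_cancel₀ hN0.ne' this
    · simp only [Pi.single_eq_of_ne hj] at h3 ⊢
      simp at h3
      rcases h3 with h3 | h3
      · exact absurd h3 (by omega)
      · exact h3
  · intro g
    obtain ⟨p, hp⟩ := QuotientAddGroup.mk_surjective (Multiplicative.toAdd g)
    obtain ⟨x, hx, hxu⟩ := hT (fun j => (p j : ℝ) / N)
    choose z hz using hint x
    have hzp : ∀ j, z j ≤ p j ∧ p j < z j + N := by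
      intro j
      obtain ⟨h1, h2⟩ := hx j
      rw [le_div_iff₀ hN0] at h1
      rw [div_lt_iff₀ hN0] at h2
      have h3 := hz j
      constructor
      · have : (z j : ℝ) ≤ p j := by linarith
        exact_mod_cast this
      · have : (p j : ℝ) < z j + N := by linarith
        exact_mod_cast this
    have hzL : z ∈ L := ⟨x, fun j => (hz j).symm⟩
    have hg : ∀ k : Fin n → ℕ, (∏ i, a i ^ k i = g ↔ (fun j => p j - (k j : ℤ)) ∈ L) := by
      intro k
      rw [hprod]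
      have h1 : g = Multiplicative.ofAdd (QuotientAddGroup.mk p) := by rw [hp]; rfl
      rw [h1, Multiplicative.ofAdd.apply_eq_iff_eq, QuotientAddGroup.eq]
      have h2 : (-(fun i => (k i : ℤ)) + p) = (fun j => p j - (k j : ℤ)) := by
        funext j
        simp
        ring
      rw [h2]
    refine ⟨fun j => (p j - z j).toNat, ⟨fun j => ?_, ?_⟩, ?_⟩
    · have := hzp j
      show (p j - z j).toNat < N
      omega
    · rw [hg]
      have : (fun j => p j - (((p j - z j).toNat : ℕ) : ℤ)) = z := by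
        funext j
        have := hzp j
        omega
      rw [this]
      exact hzL
    · rintro k ⟨hk1, hk2⟩
      rw [hg] at hk2
      obtain ⟨y, hy⟩ := hk2
      have h1 : y = x := by
        apply hxu
        intro j
        have h2 := hy j
        have h3 : ((k j : ℕ) : ℝ) < N := by exact_mod_cast hk1 j
        have h4 : (0 : ℝ) ≤ k j := Nat.cast_nonneg _
        push_cast at h2
        rw [le_div_iff₀ hN0, div_lt_iff₀ hN0]
        constructor <;> nlinarith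
      subst h1
      funext j
      have h2 := hy j
      rw [hz j] at h2
      have h3 : p j - (k j : ℤ) = z j := by exact_mod_cast h2
      omega

end rational

/-- the rational positions -/
noncomputable def qpos {T : Type*} [AddCommGroup T] {n : ℕ} (ψ : ℝ →ₗ[ℚ] ℚ)
    (pos : T →+ (Fin n → ℝ)) : T →+ (Fin n → ℝ) where
  toFun x j := ((ψ (pos x j) : ℚ) : ℝ)
  map_zero' := by
    funext j
    simp
  map_add' x y := by
    funext j
    simp

theorem qpos_apply {T : Type*} [AddCommGroup T] {n : ℕ} (ψ : ℝ →ₗ[ℚ] ℚ)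
    (pos : T →+ (Fin n → ℝ)) (x : T) (j : Fin n) : qpos ψ pos x j = ((ψ (pos x j) : ℚ) : ℝ) := rfl

theorem exists_denom {T : Type*} [AddCommGroup T] {n : ℕ} (ψ : ℝ →ₗ[ℚ] ℚ)
    (pos : T →+ (Fin n → ℝ)) (s : Finset T) (hs : AddSubgroup.closure (s : Set T) = ⊤) :
    ∃ N : ℕ, 2 ≤ N ∧ ∀ x j, ∃ z : ℤ, (N : ℝ) * qpos ψ pos x j = z := by
  classical
  set M : ℕ := ∏ g ∈ s, ∏ j : Fin n, (ψ (pos g j)).den with hM
  have hM0 : 0 < M := Finset.prod_pos fun g _ => Finset.prod_pos fun j _ => (ψ (pos g j)).den_pos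
  refine ⟨2 * M, by omega, ?_⟩
  intro x
  have hx : x ∈ AddSubgroup.closure (s : Set T) := by rw [hs]; trivial
  induction hx using AddSubgroup.closure_induction with
  | mem g hg =>
    intro j
    have h1 : (ψ (pos g j)).den ∣ M := by
      refine dvd_trans ?_ (Finset.dvd_prod_of_mem _ hg)
      exact Finset.dvd_prod_of_mem (fun j => (ψ (pos g j)).den) (Finset.mem_univ j)
    obtain ⟨c, hc⟩ := h1
    refine ⟨2 * c * (ψ (pos g j)).num, ?_⟩
    rw [qpos_apply]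
    have h2 : (((ψ (pos g j)) : ℚ) : ℝ) * ((ψ (pos g j)).den : ℝ) = ((ψ (pos g j)).num : ℝ) := by
      exact_mod_cast Rat.mul_den_eq_num (ψ (pos g j))
    rw [hc]
    push_cast
    calc (2 : ℝ) * (((ψ (pos g j)).den : ℝ) * c) * ((ψ (pos g j) : ℚ) : ℝ)
        = 2 * c * (((ψ (pos g j) : ℚ) : ℝ) * ((ψ (pos g j)).den : ℝ)) := by ring
      _ = _ := by rw [h2]
  | zero =>
    intro j
    exact ⟨0, by simp⟩
  | add x y _ _ hx hy =>
    intro j
    obtain ⟨a, ha⟩ := hx j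
    obtain ⟨b, hb⟩ := hy j
    refine ⟨a + b, ?_⟩
    rw [map_add, Pi.add_apply, mul_add, ha, hb]
    push_cast
    ring
  | neg x _ hx =>
    intro j
    obtain ⟨a, ha⟩ := hx j
    refine ⟨-a, ?_⟩
    rw [map_neg, Pi.neg_apply, mul_neg, ha]
    push_cast
    ring

theorem hajos_fg {T : Type*} [AddCommGroup T] {n : ℕ} (hn : 0 < n) (pos : T →+ (Fin n → ℝ))
    (s : Finset T) (hs : AddSubgroup.closure (s : Set T) = ⊤)
    (hT : IsTiling (fun x => pos x)) :
    ∃ (i : Fin n) (x : T), pos x = Pi.single i 1 := by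
  classical
  obtain ⟨ψ, hψ1, hψ⟩ := exists_approx
  have hTk : ∀ k, IsTiling (fun x => qpos (ψ k) pos x) := by
    intro k
    have := hT.map (fun _ t => ((ψ k t : ℚ) : ℝ)) (by
      intro j t
      rw [map_add, hψ1]
      push_cast
      ring)
    exact this
  have hk : ∀ k, ∃ (i : Fin n) (x : T), qpos (ψ k) pos x = Pi.single i 1 := by
    intro k
    obtain ⟨N, hN, hint⟩ := exists_denom (ψ k) pos s hs
    exact hajos_rational hn (qpos (ψ k) pos) (hTk k) N hN hint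
  choose i x hx using hk
  -- a value of `i` taken infinitely often
  obtain ⟨i₀, hi₀⟩ : ∃ i₀, ∃ᶠ k in atTop, i k = i₀ := by
    by_contra hc
    push Not at hc
    have h1 : ∀ i₀, ∀ᶠ k in atTop, ¬ i k = i₀ := fun i₀ => hc i₀
    have h2 : ∀ᶠ k in atTop, ∀ i₀, ¬ i k = i₀ := eventually_all.2 h1
    obtain ⟨k, hk⟩ := h2.exists
    exact hk _ rfl
  obtain ⟨x₀, hx₀, -⟩ := hT (fun j => (Pi.single i₀ (1 : ℝ) : Fin n → ℝ) j + 1 / 2)
  -- an interior point
  obtain ⟨t, ht0, ht1, ht⟩ : ∃ t : ℝ, 0 < t ∧ t < 1 / 2 ∧ ∀ j,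
      (Pi.single i₀ (1 : ℝ) : Fin n → ℝ) j + 1 / 2 + t < pos x₀ j + 1 := by
    have h1 : ∀ j, ∀ᶠ t : ℝ in 𝓝[>] 0,
        (Pi.single i₀ (1 : ℝ) : Fin n → ℝ) j + 1 / 2 + t < pos x₀ j + 1 := by
      intro j
      have h2 := (hx₀ j).2
      have h3 : Iio (pos x₀ j + 1 - ((Pi.single i₀ (1 : ℝ) : Fin n → ℝ) j + 1 / 2)) ∈ 𝓝 (0:ℝ) :=
        Iio_mem_nhds (by linarith)
      have h4 : Iio (pos x₀ j + 1 - ((Pi.single i₀ (1 : ℝ) : Fin n → ℝ) j + 1 / 2)) ∈ 𝓝[>] (0:ℝ) :=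
        mem_nhdsWithin_of_mem_nhds h3
      filter_upwards [h4] with t ht
      have : t < pos x₀ j + 1 - ((Pi.single i₀ (1 : ℝ) : Fin n → ℝ) j + 1 / 2) := ht
      linarith
    have h2 := eventually_all.2 h1
    have h3 : ∀ᶠ t : ℝ in 𝓝[>] 0, t < 1 / 2 := by
      have h3 : Iio (1/2 : ℝ) ∈ 𝓝 (0:ℝ) := Iio_mem_nhds (by norm_num)
      exact mem_nhdsWithin_of_mem_nhds h3
    have h4 : ∀ᶠ t : ℝ in 𝓝[>] 0, 0 < t := self_mem_nhdsWithin
    obtain ⟨t, ht⟩ := (h2.and (h3.and h4)).exists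
    exact ⟨t, ht.2.2, ht.2.1, ht.1⟩
  have hev : ∀ᶠ k in atTop, ∀ j, qpos (ψ k) pos x₀ j < (Pi.single i₀ (1 : ℝ) : Fin n → ℝ) j + 1 / 2 + t ∧
      (Pi.single i₀ (1 : ℝ) : Fin n → ℝ) j + 1 / 2 + t < qpos (ψ k) pos x₀ j + 1 := by
    rw [eventually_all]
    intro j
    have h1 := hψ (pos x₀ j)
    have h2 := (hx₀ j).1
    have h3 := ht j
    have h4 : ∀ᶠ k in atTop, ((ψ k (pos x₀ j) : ℚ) : ℝ) <
        (Pi.single i₀ (1 : ℝ) : Fin n → ℝ) j + 1 / 2 + t :=
      h1.eventually (gt_mem_nhds (by linarith))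
    have h5 : ∀ᶠ k in atTop, (Pi.single i₀ (1 : ℝ) : Fin n → ℝ) j + 1 / 2 + t - 1 <
        ((ψ k (pos x₀ j) : ℚ) : ℝ) :=
      h1.eventually (lt_mem_nhds (by linarith))
    filter_upwards [h4, h5] with k h6 h7
    rw [qpos_apply]
    exact ⟨h6, by linarith⟩
  have hfr : ∃ᶠ k in atTop, qpos (ψ k) pos x₀ = Pi.single i₀ 1 := by
    refine (hi₀.and_eventually hev).mono ?_
    rintro k ⟨h1, h2⟩
    have h3 := hx k
    rw [h1] at h3
    have h4 : x₀ = x k := by
      refine (hTk k (fun j => (Pi.single i₀ (1 : ℝ) : Fin n → ℝ) j + 1 / 2 + t)).unique ?_ ?_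
      · intro j
        exact ⟨(h2 j).1.le, (h2 j).2⟩
      · intro j
        simp only [h3]
        constructor <;> linarith
    rw [h4, h3]
  refine ⟨i₀, x₀, ?_⟩
  funext j
  by_contra hne
  have h1 := hψ (pos x₀ j)
  have h2 : ∀ᶠ k in atTop, ((ψ k (pos x₀ j) : ℚ) : ℝ) ≠ (Pi.single i₀ (1 : ℝ) : Fin n → ℝ) j :=
    h1.eventually_ne hne
  obtain ⟨k, hk1, hk2⟩ := (hfr.and_eventually h2).exists
  apply hk2
  rw [← qpos_apply, hk1]

end Pool.Agent.H875R3.Haj
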