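import Pool.Agent.H875R3.Haj5

set_option autoImplicit false

open Filter Topology Set

namespace Pool.Agent.H875R3.Haj

variable {n : ℕ}

theorem sub_eq_of_lt (Λ : AddSubgroup (Fin n → ℝ)) (hsep : ∀ x ∈ Λ, x ≠ 0 → ∃ j, 2 ≤ |x j|)
    {x y : Fin n → ℝ} (hx : x ∈ Λ) (hy : y ∈ Λ) (h : ∀ j, |x j - y j| < 2) : x = y := by
  by_contra hne
  obtain ⟨j, hj⟩ := hsep (x - y) (Λ.sub_mem hx hy) (sub_ne_zero.2 hne)
  have := h j
  rw [Pi.sub_apply] at hj
  linarith

theorem finite_near (Λ : AddSubgroup (Fin n → ℝ)) (hsep : ∀ x ∈ Λ, x ≠ 0 → ∃ j, 2 ≤ |x j|)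
    (q : Fin n → ℝ) (r : ℝ) : {x | x ∈ Λ ∧ ∀ j, |x j - q j| ≤ r}.Finite := by
  refine Set.Finite.of_injOn (f := fun x (j : Fin n) => ⌊x j⌋)
    (t := Set.Icc (fun j => ⌊q j - r⌋) (fun j => ⌊q j + r⌋)) ?_ ?_ (Set.finite_Icc _ _)
  · rintro x ⟨-, hx⟩
    constructor
    · intro j
      apply Int.floor_le_floor
      have := (abs_le.1 (hx j)).1
      linarith
    · intro j
      apply Int.floor_le_floor
      have := (abs_le.1 (hx j)).2
      linarith
  · rintro x ⟨hx, -⟩ y ⟨hy, -⟩ hxy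
    apply sub_eq_of_lt Λ hsep hx hy
    intro j
    have h1 : ⌊x j⌋ = ⌊y j⌋ := congrFun hxy j
    have h2 := Int.abs_sub_lt_one_of_floor_eq_floor h1
    linarith

/-- halving -/
noncomputable def half (Λ : AddSubgroup (Fin n → ℝ)) : Λ →+ (Fin n → ℝ) where
  toFun x j := (x : Fin n → ℝ) j / 2
  map_zero' := by
    funext j
    simp
  map_add' x y := by
    funext j
    simp
    ring

theorem half_apply (Λ : AddSubgroup (Fin n → ℝ)) (x : Λ) (j : Fin n) :
    half Λ x j = (x : Fin n → ℝ) j / 2 := rfl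

theorem half_tiling (Λ : AddSubgroup (Fin n → ℝ)) (hsep : ∀ x ∈ Λ, x ≠ 0 → ∃ j, 2 ≤ |x j|)
    (hcov : ∀ p : Fin n → ℝ, ∃ x ∈ Λ, ∀ j, |p j - x j| ≤ 1) :
    IsTiling (fun x => half Λ x) := by
  intro p
  set q : Fin n → ℝ := fun j => 2 * p j - 1 with hq
  have h1 : ∀ m : ℕ, ∃ x ∈ Λ, ∀ j, |(q j + 1 / ((m : ℝ) + 1)) - x j| ≤ 1 := fun m =>
    hcov (fun j => q j + 1 / ((m : ℝ) + 1))
  choose x hx hxq using h1
  have ht : Tendsto (fun m : ℕ => 1 / ((m : ℝ) + 1)) atTop (𝓝 0) :=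
    tendsto_one_div_add_atTop_nhds_zero_nat
  have htp : ∀ m : ℕ, (0 : ℝ) < 1 / ((m : ℝ) + 1) := fun m => by positivity
  have ht1 : ∀ m : ℕ, 1 / ((m : ℝ) + 1) ≤ 1 := by
    intro m
    rw [div_le_one (by positivity)]
    have : (0 : ℝ) ≤ m := Nat.cast_nonneg m
    linarith
  have hfin := finite_near Λ hsep q 2
  have hmem : ∀ m, x m ∈ {x | x ∈ Λ ∧ ∀ j, |x j - q j| ≤ 2} := by
    intro m
    refine ⟨hx m, fun j => ?_⟩
    have h2 := abs_le.1 (hxq m j)
    have h3 := htp m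
    have h4 := ht1 m
    rw [abs_le]
    constructor <;> linarith
  obtain ⟨y, hy, hfr⟩ : ∃ y ∈ {x | x ∈ Λ ∧ ∀ j, |x j - q j| ≤ 2}, ∃ᶠ m in atTop, x m = y := by
    by_contra hc
    push Not at hc
    have h2 : ∀ y ∈ {x | x ∈ Λ ∧ ∀ j, |x j - q j| ≤ 2}, ∀ᶠ m in atTop, x m ≠ y := by
      intro y hy
      exact hc y hy
    have h3 := (eventually_all_finite hfin).2 h2
    obtain ⟨m, hm⟩ := h3.exists
    exact hm _ (hmem m) rfl
  refine ⟨⟨y, hy.1⟩, ?_, ?_⟩
  · intro j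
    simp only [half_apply]
    constructor
    · by_contra hc
      push Not at hc
      have h2 : ∀ᶠ m : ℕ in atTop, 1 / ((m : ℝ) + 1) < y j - 2 * p j :=
        ht.eventually (gt_mem_nhds (by linarith))
      obtain ⟨m, hm1, hm2⟩ := (hfr.and_eventually h2).exists
      have h3 := (abs_le.1 (hxq m j)).1
      rw [hm1] at h3
      simp only [hq] at h3
      linarith
    · obtain ⟨m, hm⟩ := hfr.exists
      have h3 := (abs_le.1 (hxq m j)).2
      have h4 := htp m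
      rw [hm] at h3
      simp only [hq] at h3
      linarith
  · rintro ⟨z, hz⟩ hz2
    apply Subtype.ext
    apply sub_eq_of_lt Λ hsep hz hy.1
    intro j
    have h5 := hz2 j
    simp only [half_apply] at h5
    have h6 : y j / 2 ≤ p j ∧ p j < y j / 2 + 1 := by
      constructor
      · by_contra hc
        push Not at hc
        have h2 : ∀ᶠ m : ℕ in atTop, 1 / ((m : ℝ) + 1) < y j - 2 * p j :=
          ht.eventually (gt_mem_nhds (by linarith))
        obtain ⟨m, hm1, hm2⟩ := (hfr.and_eventually h2).exists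
        have h3 := (abs_le.1 (hxq m j)).1
        rw [hm1] at h3
        simp only [hq] at h3
        linarith
      · obtain ⟨m, hm⟩ := hfr.exists
        have h3 := (abs_le.1 (hxq m j)).2
        have h4 := htp m
        rw [hm] at h3
        simp only [hq] at h3
        linarith
    rw [abs_lt]
    constructor <;> linarith

theorem subgroup_fg (Λ : AddSubgroup (Fin n → ℝ)) (hsep : ∀ x ∈ Λ, x ≠ 0 → ∃ j, 2 ≤ |x j|) :
    ∃ s : Finset Λ, AddSubgroup.closure (s : Set Λ) = ⊤ := by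
  let L : Submodule ℤ (Fin n → ℝ) := AddSubgroup.toIntSubmodule Λ
  have hd : DiscreteTopology L := by
    apply DiscreteTopology.of_forall_le_dist (r := 2) (by norm_num)
    intro x y hxy
    have hne : (x : Fin n → ℝ) - (y : Fin n → ℝ) ≠ 0 := by
      intro h
      exact hxy (Subtype.ext (sub_eq_zero.1 h))
    obtain ⟨j, hj⟩ := hsep _ (Λ.sub_mem x.2 y.2) hne
    rw [Subtype.dist_eq, dist_eq_norm]
    refine hj.trans ?_
    have := norm_le_pi_norm ((x : Fin n → ℝ) - (y : Fin n → ℝ)) j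
    rwa [Real.norm_eq_abs] at this
  have hf : Module.Finite ℤ L := instModuleFinite_of_discrete_submodule L
  have hf2 : Module.Finite ℤ Λ := hf
  have hf3 : AddGroup.FG Λ := Module.Finite.iff_addGroup_fg.1 hf2
  exact hf3.out

theorem hajos_subgroup (hn : 0 < n) (Λ : AddSubgroup (Fin n → ℝ))
    (hsep : ∀ x ∈ Λ, x ≠ 0 → ∃ j, 2 ≤ |x j|)
    (hcov : ∀ p : Fin n → ℝ, ∃ x ∈ Λ, ∀ j, |p j - x j| ≤ 1) :
    ∃ i : Fin n, (Pi.single i 2 : Fin n → ℝ) ∈ Λ := by
  obtain ⟨s, hs⟩ := subgroup_fg Λ hsep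
  obtain ⟨i, x, hx⟩ := hajos_fg hn (half Λ) s hs (half_tiling Λ hsep hcov)
  refine ⟨i, ?_⟩
  have h1 : (x : Fin n → ℝ) = Pi.single i 2 := by
    funext j
    have h2 := congrFun hx j
    rw [half_apply] at h2
    by_cases hj : j = i
    · subst hj
      simp only [Pi.single_eq_same] at h2 ⊢
      linarith
    · simp only [Pi.single_eq_of_ne hj] at h2 ⊢
      linarith
  rw [← h1]
  exact x.2

end Pool.Agent.H875R3.Haj
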