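import Mathlib

/-! A tiling of twelve dimensional space by unit cubes without two cubes sharing a facet,
in the form of a set of integer points of period four. -/

namespace Pool.Agent.H875R3.Kel

/-- number of vectors for each of the five symbols -/
def sz : Fin 5 → ℕ := ![12, 12, 4, 8, 8]

/-- the vectors of each symbol, coded in base 10 by four digits -/
def tab : Fin 5 → List ℕ := ![
  [0, 1012, 1020, 1132, 1213, 1230, 2211, 3002, 3021, 3203, 3231, 3323],
  [11, 103, 131, 313, 330, 1123, 2102, 2121, 2200, 2312, 2320, 3332],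
  [211, 1332, 2000, 3123],
  [1111, 1133, 1313, 1331, 3113, 3131, 3311, 3333],
  [1113, 1131, 1311, 3111, 1333, 3133, 3313, 3331]]

/-- the eight words -/
def W : Fin 8 → Fin 3 → Fin 5 := ![![0, 0, 0], ![2, 2, 2], ![3, 2, 0], ![4, 2, 1],
  ![0, 3, 2], ![1, 4, 2], ![2, 0, 3], ![2, 1, 4]]

/-- digits -/
def dig (x : ℕ) (i : Fin 4) : ℕ := x / 10 ^ (i : ℕ) % 10

/-- vector number `k` of symbol `s` -/
def el (s : Fin 5) (k : Fin (sz s)) : ℕ := (tab s).getD k 0

/-- complementary symbols -/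
def comp : Fin 5 → Fin 5 → Bool := fun s t =>
  (s == 0 && t == 2) || (s == 1 && t == 2) || (s == 2 && t == 0) || (s == 2 && t == 1) ||
  (s == 3 && t == 4) || (s == 4 && t == 3)

theorem two_of_comp : ∀ s t : Fin 5, comp s t = true → ∀ (k : Fin (sz s)) (l : Fin (sz t)),
    ∃ i : Fin 4, (dig (el s k) i + 2) % 4 = dig (el t l) i := by
  decide +kernel

theorem ne_of_ne : ∀ s t : Fin 5, s ≠ t → ∀ (k : Fin (sz s)) (l : Fin (sz t)),
    ∃ i : Fin 4, dig (el s k) i ≠ dig (el t l) i := by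
  decide +kernel

theorem strong : ∀ s : Fin 5, ∀ (k l : Fin (sz s)), k ≠ l →
    ∃ i j : Fin 4, i ≠ j ∧ (dig (el s k) i + 2) % 4 = dig (el s l) i ∧
      dig (el s k) j ≠ dig (el s l) j := by
  decide +kernel

theorem dig_lt : ∀ s : Fin 5, ∀ (k : Fin (sz s)) (i : Fin 4), dig (el s k) i < 4 := by
  decide +kernel

theorem words : ∀ w w' : Fin 8, w ≠ w' → ∃ a b : Fin 3, a ≠ b ∧
    comp (W w a) (W w' a) = true ∧ W w b ≠ W w' b := by
  decide +kernel

/-- index type of the clique -/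
abbrev I : Type := (w : Fin 8) × ((a : Fin 3) → Fin (sz (W w a)))

theorem card_I : Fintype.card I = 4096 := by
  simp only [I, Fintype.card_sigma, Fintype.card_pi, Fintype.card_fin]
  decide +kernel

/-- the coordinates -/
def cv (x : I) (a : Fin 3) (i : Fin 4) : ℕ := dig (el (W x.1 a) (x.2 a)) i

theorem clique (x y : I) (h : x ≠ y) : ∃ (a b : Fin 3) (i j : Fin 4), (a, i) ≠ (b, j) ∧
    (cv x a i + 2) % 4 = cv y a i ∧ cv x b j ≠ cv y b j := by
  obtain ⟨w, f⟩ := x
  obtain ⟨w', g⟩ := y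
  by_cases hw : w = w'
  · subst hw
    have : ∃ a, f a ≠ g a := by
      by_contra hc
      push Not at hc
      exact h (by rw [funext hc])
    obtain ⟨a, ha⟩ := this
    obtain ⟨i, j, hij, h1, h2⟩ := strong (W w a) (f a) (g a) ha
    exact ⟨a, a, i, j, fun hh => hij (Prod.mk.inj hh).2, h1, h2⟩
  · obtain ⟨a, b, hab, h1, h2⟩ := words w w' hw
    obtain ⟨i, hi⟩ := two_of_comp _ _ h1 (f a) (g a)
    obtain ⟨j, hj⟩ := ne_of_ne _ _ h2 (f b) (g b)
    exact ⟨a, b, i, j, fun hh => hab (Prod.mk.inj hh).1, hi, hj⟩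

/-- coordinate splitting -/
def sp : Fin 12 ≃ Fin 3 × Fin 4 := (finProdFinEquiv (m := 3) (n := 4)).symm

/-- the vectors in twelve coordinates -/
def v (x : I) (j : Fin 12) : ℤ := (cv x (sp j).1 (sp j).2 : ℕ)

theorem v_clique (x y : I) (h : x ≠ y) : ∃ i j : Fin 12, i ≠ j ∧
    (4 : ℤ) ∣ v x i - v y i - 2 ∧ ¬ (4 : ℤ) ∣ v x j - v y j := by
  obtain ⟨a, b, i, j, hab, h1, h2⟩ := clique x y h
  refine ⟨sp.symm (a, i), sp.symm (b, j), fun hh => hab (sp.symm.injective hh), ?_, ?_⟩
  · simp only [v, Equiv.apply_symm_apply]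
    have := dig_lt _ (x.2 a) i
    have := dig_lt _ (y.2 a) i
    simp only [cv] at *
    omega
  · simp only [v, Equiv.apply_symm_apply]
    have := dig_lt _ (x.2 b) j
    have := dig_lt _ (y.2 b) j
    simp only [cv] at *
    omega

/-- the periodic set of integer points -/
def T : Set (Fin 12 → ℤ) := {z | ∃ x : I, ∀ j, (4 : ℤ) ∣ z j - v x j}

theorem T_sep (z z' : Fin 12 → ℤ) (hz : z ∈ T) (hz' : z' ∈ T) (h : z ≠ z') :
    (∃ i, 4 ≤ |z i - z' i|) ∨ ∃ i j, i ≠ j ∧ 2 ≤ |z i - z' i| ∧ 1 ≤ |z j - z' j| := by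
  obtain ⟨x, hx⟩ := hz
  obtain ⟨y, hy⟩ := hz'
  by_cases hxy : x = y
  · subst hxy
    left
    have : ∃ i, z i ≠ z' i := by
      by_contra hc
      push Not at hc
      exact h (funext hc)
    obtain ⟨i, hi⟩ := this
    refine ⟨i, ?_⟩
    have h1 := hx i
    have h2 := hy i
    have h3 : (4 : ℤ) ∣ z i - z' i := by
      have := dvd_sub h1 h2
      simpa using this
    have h4 : z i - z' i ≠ 0 := sub_ne_zero.2 hi
    rcases abs_cases (z i - z' i) with hh | hh <;> omega
  · right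
    obtain ⟨i, j, hij, h1, h2⟩ := v_clique x y hxy
    refine ⟨i, j, hij, ?_, ?_⟩
    · have a1 := hx i
      have a2 := hy i
      rcases abs_cases (z i - z' i) with hh | hh <;> omega
    · have a1 := hx j
      have a2 := hy j
      rcases abs_cases (z j - z' j) with hh | hh <;> omega

/-- the covering map on classes modulo four -/
def F (q : I × (Fin 12 → Bool)) : Fin 12 → ZMod 4 :=
  fun j => ((v q.1 j - (if q.2 j then 1 else 0) : ℤ) : ZMod 4)

theorem F_inj : Function.Injective F := by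
  rintro ⟨x, d⟩ ⟨y, e⟩ h
  have h4 : ∀ j, (4 : ℤ) ∣ (v x j - (if d j then 1 else 0)) - (v y j - (if e j then 1 else 0)) := by
    intro j
    have := congrFun h j
    simp only [F] at this
    have h2 := (ZMod.intCast_eq_intCast_iff_dvd_sub _ _ 4).1 this.symm
    simpa using h2
  have hxy : x = y := by
    by_contra hne
    obtain ⟨i, j, hij, h1, h2⟩ := v_clique x y hne
    have := h4 i
    rcases hd : d i <;> rcases he : e i <;> simp [hd, he] at this <;> omega
  subst hxy
  have : d = e := by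
    funext j
    have := h4 j
    rcases hd : d j <;> rcases he : e j <;> simp [hd, he] at this ⊢
  rw [this]

theorem F_surj : Function.Surjective F := by
  have hb : Function.Bijective F := by
    rw [Fintype.bijective_iff_injective_and_card]
    refine ⟨F_inj, ?_⟩
    rw [Fintype.card_prod, card_I]
    simp [ZMod.card]
  exact hb.2

theorem T_cover (p : Fin 12 → ℝ) : ∃ z ∈ T, ∀ j, |p j - (z j : ℝ)| ≤ 1 := by
  obtain ⟨⟨x, d⟩, hq⟩ := F_surj (fun j => ((⌊p j⌋ : ℤ) : ZMod 4))
  refine ⟨fun j => ⌊p j⌋ + (if d j then 1 else 0), ⟨x, ?_⟩, ?_⟩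
  · intro j
    have := congrFun hq j
    simp only [F] at this
    have h2 := (ZMod.intCast_eq_intCast_iff_dvd_sub _ _ 4).1 this
    have h3 : (⌊p j⌋ + (if d j then 1 else 0)) - v x j =
      ⌊p j⌋ - (v x j - (if d j then 1 else 0)) := by ring
    rw [h3]
    simpa using h2
  · intro j
    have h1 := Int.floor_le (p j)
    have h2 := Int.lt_floor_add_one (p j)
    have h3 : (((⌊p j⌋ + (if d j then 1 else 0) : ℤ)) : ℝ) = (⌊p j⌋ : ℝ) ∨
        (((⌊p j⌋ + (if d j then 1 else 0) : ℤ)) : ℝ) = (⌊p j⌋ : ℝ) + 1 := by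
      rcases hd : d j
      · left; simp
      · right; simp
    show |p j - (((⌊p j⌋ + (if d j then 1 else 0) : ℤ)) : ℝ)| ≤ 1
    rw [abs_le]
    rcases h3 with h3 | h3 <;> rw [h3] <;> constructor <;> linarith

end Pool.Agent.H875R3.Kel
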